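import Pool.Agent.Lib.MP_8f66f0_al_WaldP.AmFinalK
import Pool.Agent.Lib.MP_8f66f0_al_WaldP.HnnFinalK
import Pool.Agent.Lib.MP_8f66f0_al_WaldL.FinalL

/-! # Amalgams and HNN extensions with small path stabilizers -/

set_option autoImplicit false

namespace Pool.Agent.WaldP

open Pool.Agent.Wald

/-- Products of `k` elements taken alternately from the factors `G i`, `G (!i)`, … and outside of
the amalgamated subgroup. -/
def Alt {G : Bool → Type} [∀ i, Group (G i)] {E : Type} [Group E] (φ : ∀ i, E →* G i) :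
    ℕ → Bool → Set (Monoid.PushoutI φ)
  | 0, _ => {1}
  | k + 1, i => {w | ∃ x : G i, x ∉ (φ i).range ∧ ∃ v ∈ Alt φ k (!i),
      w = Monoid.PushoutI.of i x * v}

/-- Reduced products of `k` steps in an HNN extension with stable letter `t`,
`t * a * t⁻¹ = φ a`. -/
def AltH {G : Type} [Group G] {A B : Subgroup G} (φ : A ≃* B) :
    ℕ → Bool → Set (HNNExtension G A B φ)
  | 0, _ => {1}
  | k + 1, true => {w | ∃ x : G,
      (∃ v ∈ AltH φ k true, w = HNNExtension.t * HNNExtension.of x * v) ∨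
      (x ∉ A ∧ ∃ v ∈ AltH φ k false,
        w = HNNExtension.t * HNNExtension.of x * HNNExtension.t⁻¹ * v)}
  | k + 1, false => {w | ∃ x : G,
      (x ∉ B ∧ ∃ v ∈ AltH φ k true, w = HNNExtension.of x * v) ∨
      (∃ v ∈ AltH φ k false, w = HNNExtension.of x * HNNExtension.t⁻¹ * v)}

theorem cj_mul_mem {G : Type} [Group G] {K : Subgroup G} {w e : G} (he : e ∈ K) :
    cj (w * e) K = cj w K := by
  ext x
  rw [mem_cj, mem_cj]
  have h1 : (w * e)⁻¹ * x * (w * e) = e⁻¹ * (w⁻¹ * x * w) * e := by group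
  rw [h1]
  constructor
  · intro h
    have h2 := K.mul_mem (K.mul_mem he h) (K.inv_mem he)
    have h3 : e * (e⁻¹ * (w⁻¹ * x * w) * e) * e⁻¹ = w⁻¹ * x * w := by group
    rwa [h3] at h2
  · intro h
    exact K.mul_mem (K.mul_mem (K.inv_mem he) h) he

private theorem finalK_am {G : Bool → Type} [∀ i, Group (G i)] {E : Type} [Group E]
    {φ : ∀ i, E →* G i} (T : AmTree (Monoid.PushoutI φ))
    (hTA : T.A = (Monoid.PushoutI.of (φ := φ) true).range)
    (hTB : T.B = (Monoid.PushoutI.of (φ := φ) false).range) (r : ℕ) :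
    ∀ s t w, w ∈ PY (fun _ => T.A ⊓ T.B) T.X r s t →
      ∃ w' ∈ Alt φ r (!s), ∃ e ∈ T.A ⊓ T.B, w = w' * e := by
  have hmem : ∀ i j (y : E), Monoid.PushoutI.of (φ := φ) i (φ i y) ∈
      (Monoid.PushoutI.of (φ := φ) j).range := by
    intro i j y
    rw [Monoid.PushoutI.of_apply_eq_base, ← Monoid.PushoutI.of_apply_eq_base φ j]
    exact ⟨_, rfl⟩
  induction r with
  | zero =>
    intro s t w hw
    exact ⟨1, rfl, w, hw.2, by group⟩
  | succ r ih =>
    rintro s t w ⟨q, u, hu, h, hh, rfl⟩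
    obtain ⟨w', hw', e, he, rfl⟩ := ih q t h hh
    rcases s with _ | _ <;> rcases q with _ | _
    · exact hu.elim
    · obtain ⟨hu1, hu2⟩ := hu
      rw [hTA] at hu1
      obtain ⟨x, rfl⟩ := hu1
      refine ⟨Monoid.PushoutI.of true x * w', ⟨x, ?_, w', hw', rfl⟩, e, he, by group⟩
      rintro ⟨y, rfl⟩
      apply hu2
      rw [hTB]
      exact hmem true false y
    · obtain ⟨hu1, hu2⟩ := hu
      rw [hTB] at hu1
      obtain ⟨x, rfl⟩ := hu1
      refine ⟨Monoid.PushoutI.of false x * w', ⟨x, ?_, w', hw', rfl⟩, e, he, by group⟩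
      rintro ⟨y, rfl⟩
      apply hu2
      rw [hTA]
      exact hmem false true y
    · exact hu.elim

private theorem finalK_hnn {G : Type} [Group G] {A B : Subgroup G} (φ : A ≃* B)
    (T : HnnTree (HNNExtension G A B φ)) (hTH : T.H = (HNNExtension.of (φ := φ)).range)
    (hTt : T.t = HNNExtension.t)
    (hTE : T.E = ((HNNExtension.of (φ := φ)).comp B.subtype).range) (r : ℕ) :
    ∀ s t w, w ∈ PY (fun _ => T.E) T.X r s t →
      ∃ w' ∈ AltH φ r s, ∃ e ∈ T.E, w = w' * e := by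
  induction r with
  | zero =>
    intro s t w hw
    refine ⟨1, ?_, w, hw.2, by group⟩
    cases s <;> rfl
  | succ r ih =>
    rintro s t w ⟨q, u, hu, h, hh, rfl⟩
    obtain ⟨w', hw', e, he, rfl⟩ := ih q t h hh
    rcases s with _ | _ <;> rcases q with _ | _
    · obtain ⟨h, hh, rfl⟩ := hu
      rw [hTH] at hh
      obtain ⟨x, rfl⟩ := hh
      rw [hTt]
      exact ⟨HNNExtension.of x * HNNExtension.t⁻¹ * w', ⟨x, Or.inr ⟨w', hw', rfl⟩⟩, e, he,
        by group⟩
    · obtain ⟨hu1, hu2⟩ := hu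
      rw [hTH] at hu1
      obtain ⟨x, rfl⟩ := hu1
      refine ⟨HNNExtension.of x * w', ⟨x, Or.inl ⟨?_, w', hw', rfl⟩⟩, e, he, by group⟩
      intro hx
      apply hu2
      rw [hTE]
      exact ⟨⟨x, hx⟩, rfl⟩
    · obtain ⟨⟨h, hh, rfl⟩, hu2⟩ := hu
      rw [hTH] at hh
      obtain ⟨x, rfl⟩ := hh
      rw [hTt] at hu2 ⊢
      refine ⟨HNNExtension.t * HNNExtension.of x * HNNExtension.t⁻¹ * w',
        ⟨x, Or.inr ⟨?_, w', hw', rfl⟩⟩, e, he, by group⟩
      intro hx
      apply hu2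
      rw [hTE]
      refine ⟨φ ⟨x, hx⟩, ?_⟩
      change HNNExtension.of ((φ ⟨x, hx⟩ : B) : G) = _
      have h1 := HNNExtension.t_mul_of (φ := φ) ⟨x, hx⟩
      change HNNExtension.t * HNNExtension.of x = _ at h1
      rw [h1]
      group
    · obtain ⟨h, hh, rfl⟩ := hu
      rw [hTH] at hh
      obtain ⟨x, rfl⟩ := hh
      rw [hTt]
      exact ⟨HNNExtension.t * HNNExtension.of x * w', ⟨x, Or.inl ⟨w', hw', rfl⟩⟩, e, he,
        by group⟩

end Pool.Agent.WaldP

namespace Pool.Agent.WaldL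

open Pool.Agent.Wald Pool.Agent.WaldP

variable {LL : Type} [CommRing LL]

theorem whT_pushout_k [Nontrivial LL] (G : Bool → Type) [∀ i, Group (G i)] (E : Type) [Group E]
    (φ : ∀ i, E →* G i) (hφ : ∀ i, Function.Injective (φ i)) (hG : ∀ i, WhT LL (G i)) (r : ℕ)
    (hN : ∀ i, ∀ w ∈ Alt φ r i, EdgeS LL ((Monoid.PushoutI.base φ).range ⊓
      cj w (Monoid.PushoutI.base φ).range))
    (hS : ProjSF (MonoidAlgebra LL E)) : WhT LL (Monoid.PushoutI φ) := by
  intro K _ κ hκ n _ _ M hM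
  obtain ⟨T, hTA, hTB, hTE⟩ := amTree_pushout G E φ hφ
  have hb : Function.Injective (Monoid.PushoutI.base φ) := by
    rw [← Monoid.PushoutI.of_comp_eq_base (φ := φ) true]
    exact (Monoid.PushoutI.of_injective hφ true).comp (hφ true)
  have hkill : ∀ i, Kills κ ((Monoid.PushoutI.of (φ := φ) i).range : Set (Monoid.PushoutI φ)) :=
    fun i => kills_range _ (Monoid.PushoutI.of_injective hφ i) (hG i) κ hκ
  refine am_final_k T (Monoid.PushoutI.base φ) hb hTE.symm r ?_ hS κ hκ ?_ ?_ n M hM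
  · intro s t w hw
    obtain ⟨w', hw', e, he, rfl⟩ := finalK_am T hTA hTB r s t w hw
    rw [cj_mul_mem he, hTE]
    exact hN _ w' hw'
  · rw [hTA]
    exact hkill true
  · rw [hTB]
    exact hkill false

theorem whT_hnn_k [Nontrivial LL] (G : Type) [Group G] (A B : Subgroup G) (φ : A ≃* B)
    (hG : WhT LL G) (r : ℕ)
    (hN : ∀ i, ∀ w ∈ AltH φ r i, EdgeS LL (((HNNExtension.of (φ := φ)).comp B.subtype).range ⊓
      cj w ((HNNExtension.of (φ := φ)).comp B.subtype).range))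
    (hS : ProjSF (MonoidAlgebra LL A)) :
    WhT LL (HNNExtension G A B φ) := by
  intro K _ κ hκ n _ _ M hM
  obtain ⟨T, hTH, hTt, hTE⟩ := hnnTree_ext G A B φ
  have hinj : Function.Injective (((HNNExtension.of (φ := φ)).comp B.subtype).comp
      φ.toMonoidHom) := by
    intro x y h
    exact φ.injective (Subtype.val_injective (HNNExtension.of_injective φ h))
  have hran : (((HNNExtension.of (φ := φ)).comp B.subtype).comp φ.toMonoidHom).range = T.E := by
    rw [hTE]
    ext g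
    constructor
    · rintro ⟨x, hx⟩
      exact ⟨φ x, hx⟩
    · rintro ⟨y, hy⟩
      refine ⟨φ.symm y, ?_⟩
      rw [← hy]
      change HNNExtension.of ((φ (φ.symm y) : B) : G) = HNNExtension.of (y : G)
      rw [φ.apply_symm_apply]
  refine hnn_final_k T _ hinj hran r ?_ hS κ hκ ?_ n M hM
  · intro s t w hw
    obtain ⟨w', hw', e, he, rfl⟩ := finalK_hnn φ T hTH hTt hTE r s t w hw
    rw [cj_mul_mem he, hTE]
    exact hN _ w' hw'
  · rw [hTH]
    exact kills_range _ (HNNExtension.of_injective φ) hG κ hκ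

end Pool.Agent.WaldL
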