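import Pool.Agent.Lib.MP_8f66f0_al_WaldP.EdgeK
import Pool.Agent.Lib.MP_8f66f0_al_Ind.LaurPSF

/-! # The class of groups generated by amalgams and HNN extensions with small path stabilizers -/

set_option autoImplicit false

namespace Pool.Agent.WaldP

open Pool.Agent.Wald Pool.Agent.WaldL Pool.Agent.Ind

/-- The least class of groups which contains all groups `Γ` such that `K_1(LΓ)` is generated by
the units of `L` and the elements of `Γ` for all Euclidean domains `L` (for example the trivial
group) and is closed under isomorphism, directed unions, and the following amalgams `G₀ *_E G₁` and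
HNN extensions with stable letter conjugating `A` to `B`: the group `E` (or `A`) is in the class,
and for some `k`, the stabilizers of all reduced paths with `k + 1` edges in the Bass-Serre tree
are edge groups in the sense of `EdgeU`. -/
inductive PCl : (Γ : Type) → [Group Γ] → Prop
  | base {Γ : Type} [Group Γ] : (∀ (L : Type) [CommRing L] [IsDomain L], IsEuc L →
      K1Units L Γ) → PCl Γ
  | iso {Γ Γ' : Type} [Group Γ] [Group Γ'] (e : Γ ≃* Γ') : PCl Γ → PCl Γ'
  | directed {Γ : Type} [Group Γ] (S : Set (Subgroup Γ)) : S.Nonempty →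
      DirectedOn (· ≤ ·) S → (∀ g : Γ, ∃ K ∈ S, g ∈ K) → (∀ K ∈ S, PCl K) → PCl Γ
  | amalgam (G : Bool → Type) [∀ i, Group (G i)] (E : Type) [Group E] (φ : ∀ i, E →* G i)
      (k : ℕ) : (∀ i, Function.Injective (φ i)) → (∀ i, PCl (G i)) → PCl E →
      (∀ i, ∀ w ∈ Alt φ k i,
        EdgeU ↥((Monoid.PushoutI.base φ).range ⊓ cj w (Monoid.PushoutI.base φ).range)) →
      PCl (Monoid.PushoutI φ)
  | hnn (G : Type) [Group G] (A B : Subgroup G) (φ : A ≃* B) (k : ℕ) : PCl G → PCl A →
      (∀ i, ∀ w ∈ AltH φ k i, EdgeU ↥(((HNNExtension.of (φ := φ)).comp B.subtype).range ⊓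
        cj w ((HNNExtension.of (φ := φ)).comp B.subtype).range)) →
      PCl (HNNExtension G A B φ)

theorem psf_all : S_PSF := fun L G _ _ _ h => projSF_of_whT L G h

theorem pcl_kk {Γ : Type} [Group Γ] (h : PCl Γ) : KK Γ := by
  have h3 := psf_all
  have h4 : S_One := fun L _ _ hL G _ _ => whTL_one hL G
  induction h with
  | base h => exact fun L _ _ hL => (k1Units_iff L _).1 (h L hL)
  | iso e _ ih => exact kk_iso h4 e ih
  | directed S hne hd hS _ ih => exact kk_directed h4 S hne hd hS ih
  | amalgam G E φ k hφ _ _ hE ih ihE => exact kk_pushout_k h3 h4 G E φ hφ ih ihE k hE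
  | hnn G A B φ k _ _ hA ih ihA => exact kk_hnn_k h3 h4 G A B φ ih ihA k hA

/-- The theorem: for all groups of the class and all Euclidean domains `L`, `K_1(LΓ)` is generated
by the units of `L` and the elements of `Γ`. -/
theorem pcl_main {Γ : Type} [Group Γ] (h : PCl Γ) (L : Type) [CommRing L]
    [IsDomain L] (hL : IsEuc L) : K1Units L Γ :=
  (k1Units_iff L Γ).2 (pcl_kk h L hL)

/-- All finitely generated projective modules are stably free. -/
theorem pcl_projSF {Γ : Type} [Group Γ] (h : PCl Γ) (L : Type) [CommRing L]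
    [IsDomain L] (hL : IsEuc L) : ProjSF (MonoidAlgebra L Γ) :=
  kk_projSF psf_all (pcl_kk h) L hL

/-- The trivial group is in the class. -/
theorem pcl_triv (Γ : Type) [Group Γ] [Subsingleton Γ] : PCl Γ :=
  PCl.base fun L _ _ hL => (k1Units_iff L Γ).2 (whTL_one hL Γ)

end Pool.Agent.WaldP
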