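import Pool.Agent.Lib.MP_8f66f0_al_WaldP.PSys
import Pool.Agent.Lib.MP_8f66f0_al_WaldL.Supp
import Pool.Agent.Lib.MP_8f66f0_al_Wald.K1Lem

/-! # Subdivision of path systems: the matrices -/

set_option autoImplicit false

namespace Pool.Agent.WaldP

open Pool.Agent.Wald Pool.Agent.WaldL Matrix

section PStep
variable {G : Type} [Group G] {T : Type} {LL : Type} [CommRing LL]

/-- A nilpotent matrix with entries supported in the connecting sets of a path system. -/
structure PNil (LL : Type) [CommRing LL] (S : PSys G T) (I : Type) [Fintype I] [DecidableEq I]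
    (ty : I → T) where
  ν : Matrix I I (MonoidAlgebra LL G)
  supp : ∀ a b, WaldL.SuppIn (S.X (ty a) (ty b)) (ν a b)
  m : ℕ
  pow : ν ^ m = 0

private theorem pstep_pow {L I J : Type} [Ring L] [Fintype I] [DecidableEq I] [Fintype J]
    [DecidableEq J] (α : Matrix I J L) (β : Matrix J I L) (k : ℕ) :
    (β * α) ^ (k + 1) = β * (α * β) ^ k * α := by
  induction k with
  | zero => rw [pow_one, pow_zero, Matrix.mul_one]
  | succ k ih =>
    rw [pow_succ, ih, pow_succ]
    simp only [Matrix.mul_assoc]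

theorem PNil.step {S : PSys G T} {I : Type} [Fintype I] [DecidableEq I] {ty : I → T}
    (N : PNil LL S I ty) : ∃ (I' : Type) (_ : Fintype I') (_ : DecidableEq I')
      (ty' : I' → T × T × G) (N' : PNil LL S.step I' ty'), SameK N.ν N'.ν ∧
      ∀ a', ∃ a b, (ty' a').1 = ty a ∧ (ty' a').2.1 = ty b ∧ (ty' a').2.2 ∈ S.X (ty a) (ty b) := by
  classical
  have hdec : ∀ (a b : I) (g : G), ∃ (d c : G), d ∈ S.D (ty a) ∧ c ∈ S.D (ty b) ∧
      g = d * dcRep (S.D (ty a)) (S.D (ty b)) g * c := by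
    intro a b g
    obtain ⟨d, hd, c, hc, h⟩ := mem_dcRep (S.D (ty a)) (S.D (ty b)) g
    exact ⟨d, c, hd, hc, h⟩
  choose d c hd hc hdc using hdec
  let I' : Type := Σ ab : I × I, {g // g ∈ (N.ν ab.1 ab.2).coeff.support}
  let rep : I' → G := fun p => dcRep (S.D (ty p.1.1)) (S.D (ty p.1.2)) p.2.1
  let α : Matrix I I' (MonoidAlgebra LL G) := fun a p =>
    if a = p.1.1 then MonoidAlgebra.single (d p.1.1 p.1.2 p.2.1) ((N.ν p.1.1 p.1.2).coeff p.2.1)
    else 0
  let β : Matrix I' I (MonoidAlgebra LL G) := fun p b =>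
    if b = p.1.2 then MonoidAlgebra.single (rep p * c p.1.1 p.1.2 p.2.1) (1 : LL) else 0
  let ty' : I' → T × T × G := fun p => (ty p.1.1, ty p.1.2, rep p)
  have hX : ∀ p : I', rep p ∈ S.X (ty p.1.1) (ty p.1.2) := by
    intro p
    have h1 : p.2.1 ∈ S.X (ty p.1.1) (ty p.1.2) := by
      by_contra h
      exact (Finsupp.mem_support_iff.1 p.2.2) (N.supp _ _ _ h)
    have h2 : rep p = (d p.1.1 p.1.2 p.2.1)⁻¹ * p.2.1 * (c p.1.1 p.1.2 p.2.1)⁻¹ := by
      have key : ∀ x y r g : G, g = x * r * y → r = x⁻¹ * g * y⁻¹ := by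
        rintro x y r _ rfl
        group
      exact key _ _ _ _ (hdc p.1.1 p.1.2 p.2.1)
    rw [h2]
    exact S.right _ _ _ ((S.D _).inv_mem (hc _ _ _)) _
      (S.left _ _ _ ((S.D _).inv_mem (hd _ _ _)) _ h1)
  have hαβ : α * β = N.ν := by
    ext1 a b
    rw [Matrix.mul_apply, Fintype.sum_sigma, Finset.sum_eq_single (a, b)]
    · have h1 : ∀ g : {g // g ∈ (N.ν a b).coeff.support}, α a ⟨(a, b), g⟩ * β ⟨(a, b), g⟩ b =
          MonoidAlgebra.single g.1 ((N.ν a b).coeff g.1) := by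
        intro g
        change (if a = a then _ else _) * (if b = b then _ else _) = _
        rw [if_pos rfl, if_pos rfl, MonoidAlgebra.single_mul_single, mul_one, ← mul_assoc]
        congr 1
        exact (hdc a b g.1).symm
      rw [Finset.sum_congr rfl fun g _ => h1 g]
      rw [Finset.sum_coe_sort (N.ν a b).coeff.support
        (fun g => MonoidAlgebra.single g ((N.ν a b).coeff g))]
      exact MonoidAlgebra.sum_coeff_single (N.ν a b)
    · rintro ⟨a', b'⟩ - hne
      refine Finset.sum_eq_zero fun g _ => ?_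
      change (if a = a' then _ else _) * (if b = b' then _ else _) = _
      by_cases h1 : a = a'
      · by_cases h2 : b = b'
        · exact absurd (by rw [h1, h2]) hne
        · rw [if_neg h2, mul_zero]
      · rw [if_neg h1, zero_mul]
    · intro h
      exact absurd (Finset.mem_univ _) h
  have hsupp : ∀ p q, WaldL.SuppIn (S.step.X (ty' p) (ty' q)) ((β * α) p q) := by
    intro p q
    rw [Matrix.mul_apply]
    refine WaldL.SuppIn.sum fun b _ => ?_
    change WaldL.SuppIn _ ((if b = p.1.2 then _ else _) * (if b = q.1.1 then _ else _))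
    by_cases h1 : b = p.1.2
    · by_cases h2 : b = q.1.1
      · rw [if_pos h1, if_pos h2, MonoidAlgebra.single_mul_single]
        refine WaldL.SuppIn.single ?_ _
        have h3 : q.1.1 = p.1.2 := h2.symm.trans h1
        refine ⟨congrArg ty h3, hX p, hX q, dcRep_idem _ _ _,
          c p.1.1 p.1.2 p.2.1 * d q.1.1 q.1.2 q.2.1, (S.D _).mul_mem (hc _ _ _) ?_,
          by rw [mul_assoc]⟩
        change d q.1.1 q.1.2 q.2.1 ∈ S.D (ty p.1.2)
        rw [← h3]
        exact hd _ _ _
      · rw [if_neg h2, mul_zero]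
        exact WaldL.SuppIn.zero
    · rw [if_neg h1, zero_mul]
      exact WaldL.SuppIn.zero
  refine ⟨I', inferInstance, inferInstance, ty', ⟨β * α, hsupp, N.m + 1, ?_⟩, ?_, ?_⟩
  · rw [pstep_pow, hαβ, N.pow, Matrix.mul_zero, Matrix.zero_mul]
  · have h := sameK_swap α β
    rw [hαβ] at h
    exact h
  · intro p
    exact ⟨p.1.1, p.1.2, rfl, rfl, hX p⟩

/-- The stabilizers of the paths of length `j`. -/
theorem PNil.iter (S₀ : PSys G T) (j : ℕ) {I : Type} [Fintype I] [DecidableEq I] {ty : I → T}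
    (N : PNil LL S₀ I ty) : ∃ (T' : Type) (S : PSys G T') (b : T' → T) (I' : Type)
      (_ : Fintype I') (_ : DecidableEq I') (ty' : I' → T') (N' : PNil LL S I' ty'),
      SameK N.ν N'.ν ∧ (∀ s t, S.X s t ⊆ S₀.X (b s) (b t)) ∧
      ∀ a, ∃ l, ∃ w ∈ PY S₀.D S₀.X j (b (ty' a)) l,
        S.D (ty' a) ≤ S₀.D (b (ty' a)) ⊓ cj w (S₀.D l) := by
  induction j with
  | zero =>
    refine ⟨T, S₀, id, I, inferInstance, inferInstance, ty, N, SameK.refl _,
      fun _ _ => le_rfl, fun a => ⟨ty a, 1, ⟨rfl, (S₀.D _).one_mem⟩, le_inf le_rfl ?_⟩⟩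
    intro d hd
    rw [mem_cj, inv_one, one_mul, mul_one]
    exact hd
  | succ j ih =>
    obtain ⟨T', S, b, I', _, _, ty', N', h1, h2, h3⟩ := ih
    obtain ⟨I'', _, _, ty'', N'', h4, h5⟩ := N'.step
    refine ⟨T' × T' × G, S.step, fun p => b p.1, I'', inferInstance, inferInstance, ty'', N'',
      h1.trans h4, ?_, ?_⟩
    · rintro p q x ⟨e1, e2, e3, e4, d, hd, rfl⟩
      have e5 := S.right _ _ d hd _ e2
      have e6 := h2 _ _ e5
      rw [← e1] at e6
      exact e6
    · intro a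
      obtain ⟨a', b', e1, e2, e3⟩ := h5 a
      obtain ⟨l, w, hw, hle⟩ := h3 b'
      obtain ⟨_, _, _, hle'⟩ := h3 a'
      refine ⟨l, (ty'' a).2.2 * w, ⟨b (ty' b'), (ty'' a).2.2, ?_, w, hw, rfl⟩, ?_⟩
      · change (ty'' a).2.2 ∈ S₀.X (b (ty'' a).1) (b (ty' b'))
        rw [e1]
        exact h2 _ _ e3
      · intro x hx
        have hx1 : x ∈ S.D (ty'' a).1 := hx.1
        have hx2 : x ∈ cj (ty'' a).2.2 (S.D (ty'' a).2.1) := hx.2
        rw [e1] at hx1
        rw [e2, mem_cj] at hx2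
        refine ⟨?_, ?_⟩
        · change x ∈ S₀.D (b (ty'' a).1)
          rw [e1]
          exact (hle' hx1).1
        · change x ∈ cj ((ty'' a).2.2 * w) (S₀.D l)
          rw [mem_cj]
          have hx3 := mem_cj.1 (hle hx2).2
          have e4 : ((ty'' a).2.2 * w)⁻¹ * x * ((ty'' a).2.2 * w) =
              w⁻¹ * ((ty'' a).2.2⁻¹ * x * (ty'' a).2.2) * w := by group
          rw [e4]
          exact hx3

end PStep

end Pool.Agent.WaldP
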