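import Pool.Agent.Lib.MP_8f66f0_al_WaldP.FamVan
import Pool.Agent.Lib.MP_8f66f0_al_WaldP.PStep
import Pool.Agent.Lib.MP_8f66f0_al_WaldL.GrFlat
import Pool.Agent.Lib.MP_8f66f0_al_WaldL.GrFree

/-! # Vanishing for nilpotent matrices over path systems with small stabilizers -/

set_option autoImplicit false

namespace Pool.Agent.WaldP

open Pool.Agent.Wald Finsupp Matrix

section Coef
variable {G : Type} [Group G] {LL : Type} [CommRing LL]

private theorem famPath_injg (D : Subgroup G) (g : G) :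
    Function.Injective (fun e : D => (e : G) * g) :=
  fun _ _ hab => Subtype.ext (mul_right_cancel hab)

/-- The component of `x` in the coset `D g`. -/
noncomputable def cf (D : Subgroup G) (g : G) (x : MonoidAlgebra LL G) : MonoidAlgebra LL D :=
  MonoidAlgebra.ofCoeff (x.coeff.comapDomain (fun e : D => (e : G) * g) (famPath_injg D g).injOn)

theorem coeff_cf (D : Subgroup G) (g : G) (x : MonoidAlgebra LL G) (e : D) :
    (cf D g x).coeff e = x.coeff ((e : G) * g) := rfl

theorem cf_zero (D : Subgroup G) (g : G) : cf D g (0 : MonoidAlgebra LL G) = 0 := by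
  ext e
  rw [coeff_cf]
  rfl

theorem cf_add (D : Subgroup G) (g : G) (x y : MonoidAlgebra LL G) :
    cf D g (x + y) = cf D g x + cf D g y := by
  ext e
  rw [coeff_cf, MonoidAlgebra.coeff_add, MonoidAlgebra.coeff_add, Finsupp.add_apply,
    Finsupp.add_apply, coeff_cf, coeff_cf]

theorem cf_sum (D : Subgroup G) (g : G) {κ : Type} (s : Finset κ)
    (f : κ → MonoidAlgebra LL G) : cf D g (∑ i ∈ s, f i) = ∑ i ∈ s, cf D g (f i) := by
  classical
  induction s using Finset.induction_on with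
  | empty => rw [Finset.sum_empty, Finset.sum_empty, cf_zero]
  | insert a s ha ih => rw [Finset.sum_insert ha, Finset.sum_insert ha, cf_add, ih]

/-- `cf` is linear over `LL D`. -/
theorem cf_mul (D : Subgroup G) (g : G) (r : MonoidAlgebra LL D) (y : MonoidAlgebra LL G) :
    cf D g (WaldL.inc D.subtype r * y) = r * cf D g y := by
  refine (WaldL.suppIn_univ r).induction
    (p := fun r => cf D g (WaldL.inc D.subtype r * y) = r * cf D g y) ?_ ?_ ?_
  · rw [map_zero, zero_mul, zero_mul, cf_zero]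
  · intro x x' h1 h2
    rw [map_add, add_mul, cf_add, h1, h2, add_mul]
  · intro e' _ a
    rw [WaldL.inc_single]
    ext e
    rw [coeff_cf, MonoidAlgebra.coeff_single_mul_apply, MonoidAlgebra.coeff_single_mul_apply,
      coeff_cf]
    have h3 : ((e'⁻¹ * e : D) : G) * g = (D.subtype e')⁻¹ * ((e : G) * g) := by
      change ((e' : G)⁻¹ * (e : G)) * g = (e' : G)⁻¹ * ((e : G) * g)
      rw [mul_assoc]
    rw [h3]

/-- The coset `D g`. -/
def cs (D : Subgroup G) (g : G) : Set G := {w | w * g⁻¹ ∈ D}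

theorem inc_cf (D D' : Subgroup G) (hD : D' ≤ D) (g : G) (x : MonoidAlgebra LL G)
    (hx : ∀ w, x.coeff w ≠ 0 → w * g⁻¹ ∈ D → w * g⁻¹ ∈ D') :
    WaldL.inc D'.subtype (cf D' g x) =
      WaldL.rs (cs D g) x * MonoidAlgebra.single g⁻¹ (1 : LL) := by
  ext w
  rw [MonoidAlgebra.coeff_mul_single_apply, inv_inv, mul_one]
  by_cases hw : w ∈ D'
  · have h1 : (WaldL.inc D'.subtype (cf D' g x)).coeff w = (cf D' g x).coeff ⟨w, hw⟩ := by
      change ((MonoidAlgebra.mapDomain D'.subtype (cf D' g x)).coeff) (D'.subtype ⟨w, hw⟩) = _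
      rw [MonoidAlgebra.coeff_mapDomain]
      exact Finsupp.mapDomain_apply D'.subtype_injective _ _
    rw [h1, coeff_cf, WaldL.coeff_rs_mem]
    change w * g * g⁻¹ ∈ D
    rw [mul_inv_cancel_right]
    exact hD hw
  · have h1 : (WaldL.inc D'.subtype (cf D' g x)).coeff w = 0 := by
      change ((MonoidAlgebra.mapDomain D'.subtype (cf D' g x)).coeff) w = 0
      rw [MonoidAlgebra.coeff_mapDomain]
      refine Finsupp.mapDomain_of_notMem_range _ _ ?_
      rintro ⟨y, rfl⟩
      exact hw y.2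
    rw [h1]
    by_cases h2 : w ∈ D
    · rw [WaldL.coeff_rs_mem]
      · by_contra hne
        have h3 := hx (w * g) (fun h => hne h.symm)
        rw [mul_inv_cancel_right] at h3
        exact hw (h3 h2)
      · change w * g * g⁻¹ ∈ D
        rw [mul_inv_cancel_right]
        exact h2
    · rw [WaldL.coeff_rs_notMem]
      intro h
      have h' : w * g * g⁻¹ ∈ D := h
      rw [mul_inv_cancel_right] at h'
      exact h2 h'

end Coef

section Key
variable {G : Type} [Group G] {T : Type} {LL : Type} [CommRing LL]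

theorem PNil.pow_supp {S : PSys G T} {I : Type} [Fintype I] [DecidableEq I] {ty : I → T}
    (N : PNil LL S I ty) (i : ℕ) :
    ∀ a b, WaldL.SuppIn (PY S.D S.X i (ty a) (ty b)) ((N.ν ^ i) a b) := by
  induction i with
  | zero =>
    intro a b
    rw [pow_zero, Matrix.one_apply]
    split_ifs with h
    · subst h
      exact WaldL.SuppIn.one ⟨rfl, (S.D _).one_mem⟩
    · exact WaldL.SuppIn.zero
  | succ i ih =>
    intro a b
    rw [pow_succ', Matrix.mul_apply]
    refine WaldL.SuppIn.sum fun j _ => (N.supp a j).mul (ih j b) ?_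
    intro u hu v hv
    exact ⟨ty j, u, hu, v, hv, rfl⟩

/-- The key step. -/
theorem famPath_key (S : PSys G T) {n : ℕ} (ty : Fin n → T) (i : ℕ) (l : T) (s : T)
    (y w : Fin n → MonoidAlgebra LL G) (r : T) (g : G)
    (hy : ∀ b, WaldL.SuppIn (S.X s (ty b)) (y b))
    (hw : ∀ b, WaldL.SuppIn (PY S.D S.X i (ty b) l) (w b))
    (hsum : ∑ b, y b * w b = 0) :
    ∑ b, (open Classical in if ty b = r then y b * WaldL.rs (cs (S.D r) g) (w b) else 0) = 0 := by
  classical
  let Sg : Set G := {z | ∃ u v, u ∈ S.X s r ∧ v ∈ PY S.D S.X i r l ∧ v ∈ cs (S.D r) g ∧ z = u * v}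
  have e1 : ∀ b, WaldL.rs Sg (y b * w b) =
      if ty b = r then y b * WaldL.rs (cs (S.D r) g) (w b) else 0 := by
    intro b
    by_cases hb : ty b = r
    · rw [if_pos hb]
      have e2 : y b * w b = y b * WaldL.rs (cs (S.D r) g) (w b) +
          y b * WaldL.rs (cs (S.D r) g)ᶜ (w b) := by
        rw [← mul_add, WaldL.rs_add_compl]
      have e3 : WaldL.SuppIn Sg (y b * WaldL.rs (cs (S.D r) g) (w b)) := by
        have e4 : WaldL.SuppIn (PY S.D S.X i (ty b) l ∩ cs (S.D r) g)
            (WaldL.rs (cs (S.D r) g) (w b)) := by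
          intro h hh
          by_cases h1 : h ∈ PY S.D S.X i (ty b) l
          · exact WaldL.rs_supp _ _ h (fun h2 => hh ⟨h1, h2⟩)
          · exact ((hw b).rs _) h h1
        refine (hy b).mul e4 ?_
        rintro u hu v ⟨hv1, hv2⟩
        rw [hb] at hu hv1
        exact ⟨u, v, hu, hv1, hv2, rfl⟩
      have e5 : WaldL.SuppIn Sgᶜ (y b * WaldL.rs (cs (S.D r) g)ᶜ (w b)) := by
        have e4 : WaldL.SuppIn (PY S.D S.X i (ty b) l ∩ (cs (S.D r) g)ᶜ)
            (WaldL.rs (cs (S.D r) g)ᶜ (w b)) := by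
          intro h hh
          by_cases h1 : h ∈ PY S.D S.X i (ty b) l
          · exact WaldL.rs_supp _ _ h (fun h2 => hh ⟨h1, h2⟩)
          · exact ((hw b).rs _) h h1
        refine (hy b).mul e4 ?_
        rintro u' hu' v' ⟨hv1', hv2'⟩
        rintro ⟨u, v, hu, hv1, hv2, huv⟩
        obtain ⟨-, e6⟩ := S.uniq i s r s (ty b) l u hu u' hu' v hv1 v' hv1' huv.symm
        apply hv2'
        have e7 : v' * g⁻¹ = (u⁻¹ * u')⁻¹ * (v * g⁻¹) := by
          have e8 : v' = (u⁻¹ * u')⁻¹ * v := by
            rw [_root_.mul_inv_rev, inv_inv, mul_assoc, ← huv, inv_mul_cancel_left]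
          rw [e8, mul_assoc]
        change v' * g⁻¹ ∈ S.D r
        rw [e7]
        exact (S.D r).mul_mem ((S.D r).inv_mem e6) hv2
      rw [e2, map_add, WaldL.rs_eq_self e3,
        WaldL.rs_eq_zero e5 (Set.disjoint_left.mpr fun z hz hz' => hz' hz), add_zero]
    · rw [if_neg hb]
      have e5 : WaldL.SuppIn Sgᶜ (y b * w b) := by
        refine (hy b).mul (hw b) ?_
        rintro u' hu' v' hv'
        rintro ⟨u, v, hu, hv1, hv2, huv⟩
        obtain ⟨e6, -⟩ := S.uniq i s r s (ty b) l u hu u' hu' v hv1 v' hv' huv.symm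
        exact hb e6.symm
      exact WaldL.rs_eq_zero e5 (Set.disjoint_left.mpr fun z hz hz' => hz' hz)
  have e6 : WaldL.rs Sg (∑ b, y b * w b) =
      ∑ b, if ty b = r then y b * WaldL.rs (cs (S.D r) g) (w b) else 0 := by
    rw [map_sum]
    exact Finset.sum_congr rfl fun b _ => e1 b
  rw [← e6, hsum, map_zero]

end Key

end Pool.Agent.WaldP
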