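import Pool.Agent.Lib.MP_8f66f0_al_Wald.Defs
import Pool.Agent.Lib.MP_8f66f0_al_WaldL.GrDefs

/-! Condition (C1) passes to the group rings of subgroups. -/

set_option autoImplicit false

namespace Pool.Agent.WaldP

open Pool.Agent.Wald

/-- The conclusion of (C1) from matrices with arbitrary finite index types. -/
private theorem C1Sub_fin {R : Type} [Ring R] {a b s : ℕ} (h : Matrix (Fin a) (Fin b) R)
    (k : Matrix (Fin s) (Fin a) R) {ι κ : Type} [Fintype ι] [Fintype κ]
    (k' : Matrix ι (Fin a) R) (ρ : Matrix κ (Fin s) R) (ρ' : Matrix κ ι R) (h1 : k' * h = 0)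
    (h2 : ρ * k + ρ' * k' = 0)
    (h3 : ∀ c : Fin s → R, Matrix.vecMul c k = 0 → ∃ z : κ → R, Matrix.vecMul z ρ = c ∧
      Matrix.vecMul z ρ' = 0) :
    ∃ (s' : ℕ) (k' : Matrix (Fin s') (Fin a) R) (T : ℕ) (ρ : Matrix (Fin T) (Fin s) R)
      (ρ' : Matrix (Fin T) (Fin s') R), k' * h = 0 ∧ ρ * k + ρ' * k' = 0 ∧
      ∀ c : Fin s → R, Matrix.vecMul c k = 0 → ∃ z : Fin T → R, Matrix.vecMul z ρ = c ∧
        Matrix.vecMul z ρ' = 0 := by
  let e1 := Fintype.equivFin ι
  let e2 := Fintype.equivFin κ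
  refine ⟨Fintype.card ι, k'.submatrix e1.symm id, Fintype.card κ, ρ.submatrix e2.symm id,
    ρ'.submatrix e2.symm e1.symm, ?_, ?_, ?_⟩
  · refine Matrix.ext fun i j => ?_
    exact congrFun (congrFun h1 (e1.symm i)) j
  · refine Matrix.ext fun i j => ?_
    have h4 : ∑ l, ρ (e2.symm i) l * k l j + ∑ l, ρ' (e2.symm i) l * k' l j = 0 :=
      congrFun (congrFun h2 (e2.symm i)) j
    rw [← Equiv.sum_comp e1.symm fun l => ρ' (e2.symm i) l * k' l j] at h4
    exact h4
  · intro c hc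
    obtain ⟨z, hz1, hz2⟩ := h3 c hc
    refine ⟨z ∘ e2.symm, ?_, ?_⟩
    · funext j
      rw [← hz1]
      exact Equiv.sum_comp e2.symm fun l => z l * ρ l j
    · funext j
      have h5 := congrFun hz2 (e1.symm j)
      rw [Pi.zero_apply] at h5 ⊢
      rw [← h5]
      exact Equiv.sum_comp e2.symm fun l => z l * ρ' l (e1.symm j)

section

variable {LL : Type} [CommRing LL] {E E' : Type} [Group E] [Group E'] (φ : E' →* E)
  (hφ : Function.Injective φ)

/-- Restriction of the coefficients. -/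
private noncomputable def C1Sub_pi : MonoidAlgebra LL E →+ MonoidAlgebra LL E' where
  toFun x := MonoidAlgebra.ofCoeff (x.coeff.comapDomain φ hφ.injOn)
  map_zero' := by
    rw [MonoidAlgebra.coeff_zero, Finsupp.comapDomain_zero, MonoidAlgebra.ofCoeff_zero]
  map_add' x y := by
    rw [MonoidAlgebra.coeff_add, Finsupp.comapDomain_add, MonoidAlgebra.ofCoeff_add]

private theorem C1Sub_pi_coeff (x : MonoidAlgebra LL E) (e : E') :
    (C1Sub_pi φ hφ x).coeff e = x.coeff (φ e) := rfl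

private theorem C1Sub_pi_mem (e : E') (a : LL) :
    C1Sub_pi φ hφ (MonoidAlgebra.single (φ e) a) = MonoidAlgebra.single e a := by
  refine MonoidAlgebra.ext ?_
  ext e'
  rw [C1Sub_pi_coeff, MonoidAlgebra.coeff_single, MonoidAlgebra.coeff_single]
  by_cases he : e = e'
  · rw [he, Finsupp.single_eq_same, Finsupp.single_eq_same]
  · rw [Finsupp.single_eq_of_ne' he, Finsupp.single_eq_of_ne' fun h' => he (hφ h')]

private theorem C1Sub_pi_out (g : E) (hg : g ∉ φ.range) (a : LL) :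
    C1Sub_pi φ hφ (MonoidAlgebra.single g a) = 0 := by
  refine MonoidAlgebra.ext ?_
  ext e'
  rw [C1Sub_pi_coeff, MonoidAlgebra.coeff_single, MonoidAlgebra.coeff_zero, Finsupp.zero_apply]
  exact Finsupp.single_eq_of_ne' fun h' => hg ⟨e', h'.symm⟩

private theorem C1Sub_inc_single (e : E') (a : LL) :
    WaldL.inc φ (MonoidAlgebra.single e a) = MonoidAlgebra.single (φ e) a := by
  show MonoidAlgebra.mapDomain φ (MonoidAlgebra.single e a) = _
  rw [MonoidAlgebra.mapDomain_single]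

private theorem C1Sub_pi_mul (y : MonoidAlgebra LL E) (r : MonoidAlgebra LL E') :
    C1Sub_pi φ hφ (y * WaldL.inc φ r) = C1Sub_pi φ hφ y * r := by
  induction r using MonoidAlgebra.induction_linear with
  | zero => rw [map_zero, mul_zero, mul_zero, map_zero]
  | add r r' ih ih' => rw [map_add, mul_add, map_add, ih, ih', mul_add]
  | single e b =>
    rw [C1Sub_inc_single]
    induction y using MonoidAlgebra.induction_linear with
    | zero => rw [zero_mul, map_zero, zero_mul]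
    | add y y' ih ih' => rw [add_mul, map_add, ih, ih', map_add, add_mul]
    | single g a =>
      rw [MonoidAlgebra.single_mul_single]
      by_cases hg : g ∈ φ.range
      · obtain ⟨e', rfl⟩ := hg
        rw [← map_mul, C1Sub_pi_mem, C1Sub_pi_mem, MonoidAlgebra.single_mul_single]
      · rw [C1Sub_pi_out φ hφ g hg, zero_mul]
        refine C1Sub_pi_out φ hφ _ (fun h' => hg ?_) _
        have h2 := φ.range.mul_mem h' (φ.range.inv_mem ⟨e, rfl⟩)
        rwa [mul_inv_cancel_right] at h2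

private theorem C1Sub_pi_inc (r : MonoidAlgebra LL E') :
    C1Sub_pi φ hφ (WaldL.inc φ r) = r := by
  have h1 := C1Sub_pi_mul φ hφ (1 : MonoidAlgebra LL E) r
  rw [one_mul] at h1
  rw [h1, MonoidAlgebra.one_def, ← map_one φ, C1Sub_pi_mem, ← MonoidAlgebra.one_def, one_mul]

/-- The group element. -/
private noncomputable abbrev C1Sub_sg (LL : Type) [CommRing LL] {E : Type} [Group E] (g : E) :
    MonoidAlgebra LL E := MonoidAlgebra.single g 1

/-- The component of `x` at the coset `q`. -/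
private noncomputable def C1Sub_c (q : E ⧸ φ.range) (x : MonoidAlgebra LL E) :
    MonoidAlgebra LL E' := C1Sub_pi φ hφ (C1Sub_sg LL (Quotient.out q)⁻¹ * x)

/-- The finite set `F` of cosets contains the support of `x`. -/
private def C1Sub_ok (F : Finset (E ⧸ φ.range)) (x : MonoidAlgebra LL E) : Prop :=
  x = ∑ q ∈ F, C1Sub_sg LL (Quotient.out q) * WaldL.inc φ (C1Sub_c φ hφ q x)

private theorem C1Sub_c_add (q : E ⧸ φ.range) (x y : MonoidAlgebra LL E) :
    C1Sub_c φ hφ q (x + y) = C1Sub_c φ hφ q x + C1Sub_c φ hφ q y := by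
  unfold C1Sub_c
  rw [mul_add, map_add]

private theorem C1Sub_ok_ex (x : MonoidAlgebra LL E) :
    ∃ F₀ : Finset (E ⧸ φ.range), ∀ F, F₀ ⊆ F → C1Sub_ok φ hφ F x := by
  classical
  induction x using MonoidAlgebra.induction_linear with
  | zero =>
    refine ⟨∅, fun F _ => ?_⟩
    unfold C1Sub_ok C1Sub_c
    symm
    refine Finset.sum_eq_zero fun q _ => ?_
    rw [mul_zero, map_zero, map_zero, mul_zero]
  | add x y ihx ihy =>
    obtain ⟨F1, h1⟩ := ihx
    obtain ⟨F2, h2⟩ := ihy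
    refine ⟨F1 ∪ F2, fun F hF => ?_⟩
    have h3 := h1 F (Finset.union_subset_left hF)
    have h4 := h2 F (Finset.union_subset_right hF)
    unfold C1Sub_ok at h3 h4 ⊢
    rw [Finset.sum_congr rfl fun q _ => by rw [C1Sub_c_add, map_add, mul_add],
      Finset.sum_add_distrib, ← h3, ← h4]
  | single g a =>
    refine ⟨{(g : E ⧸ φ.range)}, fun F hF => ?_⟩
    rw [Finset.singleton_subset_iff] at hF
    unfold C1Sub_ok
    rw [Finset.sum_eq_single_of_mem (g : E ⧸ φ.range) hF]
    · have h1 : (Quotient.out (g : E ⧸ φ.range))⁻¹ * g ∈ φ.range := by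
        rw [← QuotientGroup.eq]
        exact QuotientGroup.out_eq' _
      obtain ⟨e, he⟩ := h1
      unfold C1Sub_c C1Sub_sg
      rw [MonoidAlgebra.single_mul_single, one_mul, ← he, C1Sub_pi_mem, C1Sub_inc_single,
        MonoidAlgebra.single_mul_single, one_mul, he, mul_inv_cancel_left]
    · intro q _ hq
      have h1 : (Quotient.out q)⁻¹ * g ∉ φ.range := by
        rw [← QuotientGroup.eq]
        intro h'
        refine hq ?_
        rw [← h']
        exact (QuotientGroup.out_eq' q).symm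
      unfold C1Sub_c C1Sub_sg
      rw [MonoidAlgebra.single_mul_single, one_mul, C1Sub_pi_out φ hφ _ h1, map_zero, mul_zero]

/-- A common finite set for a finite family. -/
private theorem C1Sub_ok_fam {ι : Type} [Finite ι] (x : ι → MonoidAlgebra LL E) :
    ∃ F : Finset (E ⧸ φ.range), ∀ i, C1Sub_ok φ hφ F (x i) := by
  classical
  haveI := Fintype.ofFinite ι
  choose F0 hF0 using fun i => C1Sub_ok_ex φ hφ (x i)
  exact ⟨Finset.univ.biUnion F0, fun i => hF0 i _ (Finset.subset_biUnion_of_mem F0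
    (Finset.mem_univ i))⟩

/-- The key formula. -/
private theorem C1Sub_key {F : Finset (E ⧸ φ.range)} {x : MonoidAlgebra LL E}
    (h : C1Sub_ok φ hφ F x) (z : MonoidAlgebra LL E) :
    ∑ q : F, C1Sub_pi φ hφ (z * C1Sub_sg LL (Quotient.out q.1)) * C1Sub_c φ hφ q.1 x =
      C1Sub_pi φ hφ (z * x) := by
  have h1 : ∀ q : F, C1Sub_pi φ hφ (z * C1Sub_sg LL (Quotient.out q.1)) * C1Sub_c φ hφ q.1 x =
      C1Sub_pi φ hφ (z * (C1Sub_sg LL (Quotient.out q.1) *
        WaldL.inc φ (C1Sub_c φ hφ q.1 x))) := by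
    intro q
    rw [← C1Sub_pi_mul, mul_assoc]
  rw [Finset.sum_congr rfl fun q _ => h1 q, ← map_sum, ← Finset.mul_sum]
  congr 2
  rw [Finset.sum_coe_sort F fun q => C1Sub_sg LL (Quotient.out q) *
    WaldL.inc φ (C1Sub_c φ hφ q x)]
  exact h.symm

end

/-- (C1) for a group ring implies (C1) for the group rings of the subgroups. -/
theorem c1_sub {LL : Type} [CommRing LL] {E E' : Type} [Group E] [Group E'] (φ : E' →* E)
    (hφ : Function.Injective φ) (h : Pool.Agent.Wald.C1 (MonoidAlgebra LL E)) :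
    Pool.Agent.Wald.C1 (MonoidAlgebra LL E') := by
  intro a b s hh k hk
  classical
  have hk1 : k.map (WaldL.inc φ) * hh.map (WaldL.inc φ) = 0 := by
    rw [← Matrix.map_mul, hk]
    exact Matrix.map_zero _ (map_zero _)
  obtain ⟨s', k', T, ρ, ρ', h1, h2, h3⟩ := h a b s (hh.map (WaldL.inc φ)) (k.map (WaldL.inc φ)) hk1
  obtain ⟨F, hF⟩ := C1Sub_ok_fam φ hφ fun i : Fin s' × Fin a => k' i.1 i.2
  obtain ⟨F', hF'⟩ := C1Sub_ok_fam φ hφ
    (Sum.elim (fun i : Fin T × Fin s => ρ i.1 i.2) fun i : (Fin T × Fin s') × F =>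
      ρ' i.1.1 i.1.2 * C1Sub_sg LL (Quotient.out i.2.1))
  refine C1Sub_fin hh k (ι := Fin s' × F) (κ := Fin T × F')
    (Matrix.of fun i j => C1Sub_c φ hφ i.2.1 (k' i.1 j))
    (Matrix.of fun t i => C1Sub_c φ hφ t.2.1 (ρ t.1 i))
    (Matrix.of fun t i => C1Sub_c φ hφ t.2.1 (ρ' t.1 i.1 * C1Sub_sg LL (Quotient.out i.2.1)))
    ?_ ?_ ?_
  · refine Matrix.ext fun i j => ?_
    have h4 := congrFun (congrFun h1 i.1) j
    rw [Matrix.mul_apply, Matrix.zero_apply] at h4 ⊢
    have h5 : ∀ l, Matrix.of (fun (i : Fin s' × F) j => C1Sub_c φ hφ i.2.1 (k' i.1 j)) i l *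
        hh l j = C1Sub_c φ hφ i.2.1 (k' i.1 l * hh.map (WaldL.inc φ) l j) := by
      intro l
      rw [Matrix.of_apply, Matrix.map_apply]
      unfold C1Sub_c
      rw [← C1Sub_pi_mul, mul_assoc]
    rw [Finset.sum_congr rfl fun l _ => h5 l]
    unfold C1Sub_c
    rw [← map_sum, ← Finset.mul_sum, h4, mul_zero, map_zero]
  · refine Matrix.ext fun t j => ?_
    have h4 := congrFun (congrFun h2 t.1) j
    rw [Matrix.add_apply, Matrix.mul_apply, Matrix.mul_apply, Matrix.zero_apply] at h4 ⊢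
    have h5 : ∀ l, Matrix.of (fun (t : Fin T × F') i => C1Sub_c φ hφ t.2.1 (ρ t.1 i)) t l *
        k l j = C1Sub_c φ hφ t.2.1 (ρ t.1 l * k.map (WaldL.inc φ) l j) := by
      intro l
      rw [Matrix.of_apply, Matrix.map_apply]
      unfold C1Sub_c
      rw [← C1Sub_pi_mul, mul_assoc]
    have h6 : ∀ l : Fin s', ∑ q : F, C1Sub_c φ hφ t.2.1
        (ρ' t.1 l * C1Sub_sg LL (Quotient.out q.1)) * C1Sub_c φ hφ q.1 (k' l j) =
        C1Sub_c φ hφ t.2.1 (ρ' t.1 l * k' l j) := by
      intro l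
      have h7 := C1Sub_key φ hφ (hF (l, j))
        (C1Sub_sg LL (Quotient.out t.2.1)⁻¹ * ρ' t.1 l)
      unfold C1Sub_c at h7 ⊢
      rw [mul_assoc] at h7
      rw [← h7]
      refine Finset.sum_congr rfl fun q _ => ?_
      rw [mul_assoc]
    rw [Finset.sum_congr rfl fun l _ => h5 l, Fintype.sum_prod_type]
    have h8 : ∑ x : Fin s', ∑ y : F,
        Matrix.of (fun (t : Fin T × F') (i : Fin s' × F) => C1Sub_c φ hφ t.2.1
          (ρ' t.1 i.1 * C1Sub_sg LL (Quotient.out i.2.1))) t (x, y) *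
        Matrix.of (fun (i : Fin s' × F) j => C1Sub_c φ hφ i.2.1 (k' i.1 j)) (x, y) j =
        ∑ x : Fin s', C1Sub_c φ hφ t.2.1 (ρ' t.1 x * k' x j) :=
      Finset.sum_congr rfl fun l _ => h6 l
    rw [h8]
    unfold C1Sub_c
    rw [← map_sum, ← map_sum, ← map_add, ← Finset.mul_sum, ← Finset.mul_sum, ← mul_add, h4,
      mul_zero, map_zero]
  · intro c hc
    have hc1 : Matrix.vecMul (fun i => WaldL.inc φ (c i)) (k.map (WaldL.inc φ)) = 0 := by
      funext j
      have h4 := congrFun hc j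
      have h5 : ∑ i, c i * k i j = 0 := h4
      show ∑ i, WaldL.inc φ (c i) * WaldL.inc φ (k i j) = 0
      rw [Finset.sum_congr rfl fun i _ => (map_mul (WaldL.inc φ) (c i) (k i j)).symm, ← map_sum,
        h5, map_zero]
    obtain ⟨z, hz1, hz2⟩ := h3 _ hc1
    refine ⟨fun t => C1Sub_pi φ hφ (z t.1 * C1Sub_sg LL (Quotient.out t.2.1)), ?_, ?_⟩
    · funext i
      have h4 : ∑ t, z t * ρ t i = WaldL.inc φ (c i) := congrFun hz1 i
      show ∑ t : Fin T × F', C1Sub_pi φ hφ (z t.1 * C1Sub_sg LL (Quotient.out t.2.1)) *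
        C1Sub_c φ hφ t.2.1 (ρ t.1 i) = c i
      rw [Fintype.sum_prod_type]
      have h5 : ∀ t : Fin T, ∑ q : F', C1Sub_pi φ hφ (z t * C1Sub_sg LL (Quotient.out q.1)) *
          C1Sub_c φ hφ q.1 (ρ t i) = C1Sub_pi φ hφ (z t * ρ t i) :=
        fun t => C1Sub_key φ hφ (hF' (Sum.inl (t, i))) (z t)
      rw [Finset.sum_congr rfl fun t _ => h5 t, ← map_sum, h4, C1Sub_pi_inc]
    · funext i
      have h4 : ∑ t, z t * ρ' t i.1 = 0 := congrFun hz2 i.1
      show ∑ t : Fin T × F', C1Sub_pi φ hφ (z t.1 * C1Sub_sg LL (Quotient.out t.2.1)) *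
        C1Sub_c φ hφ t.2.1 (ρ' t.1 i.1 * C1Sub_sg LL (Quotient.out i.2.1)) = 0
      rw [Fintype.sum_prod_type]
      have h5 : ∀ t : Fin T, ∑ q : F', C1Sub_pi φ hφ (z t * C1Sub_sg LL (Quotient.out q.1)) *
          C1Sub_c φ hφ q.1 (ρ' t i.1 * C1Sub_sg LL (Quotient.out i.2.1)) =
          C1Sub_pi φ hφ (z t * ρ' t i.1 * C1Sub_sg LL (Quotient.out i.2.1)) := by
        intro t
        rw [mul_assoc]
        exact C1Sub_key φ hφ (hF' (Sum.inr ((t, i.1), i.2))) (z t)
      rw [Finset.sum_congr rfl fun t _ => h5 t, ← map_sum, ← Finset.sum_mul, h4, zero_mul,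
        map_zero]

end Pool.Agent.WaldP
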