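import Pool.Agent.Lib.MP_8f66f0_al_Wald.PdN
import Pool.Agent.Lib.MP_8f66f0_al_Wald.GrFree

/-! The cohomological dimension does not increase when one passes to subgroups. -/

set_option autoImplicit false

namespace Pool.Agent.WaldP

open CategoryTheory Pool.Agent.Wald

private theorem CdSub_sh {R : Type} [Ring R] {P M : Type} [AddCommGroup P] [Module R P]
    [AddCommGroup M] [Module R M] [Module.Projective R P] (f : P →ₗ[R] M)
    (hf : Function.Surjective f) (n : ℕ)
    (hM : HasProjectiveDimensionLT (ModuleCat.of R M) (n + 2)) :
    HasProjectiveDimensionLT (ModuleCat.of R (LinearMap.ker f)) (n + 1) := by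
  have h1 := LinearMap.shortExact_shortComplexKer hf
  have hP : Projective (ModuleCat.of R P) := (IsProjective.iff_projective P).mp inferInstance
  have h2 : HasProjectiveDimensionLT (ModuleCat.of R P) (n + 1) :=
    hasProjectiveDimensionLT_of_ge _ 1 _ (by omega)
  exact h1.hasProjectiveDimensionLT_X₁ (n + 1) h2 hM

/-- Restriction of scalars preserves projective modules. -/
private theorem CdSub_proj {R S : Type} [Ring R] [Ring S] (f : R →+* S) [Module R S]
    (hS : ∀ (r : R) (s : S), r • s = f r * s) [Module.Free R S] (P : Type)
    [AddCommGroup P] [Module S P] [Module R P] (hP : ∀ (r : R) (p : P), r • p = f r • p)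
    [Module.Projective S P] : Module.Projective R P := by
  obtain ⟨s, hs⟩ := Module.projective_def.mp ‹Module.Projective S P›
  have hF : ∀ (r : R) (x : P →₀ S), r • x = f r • x := by
    intro r x
    ext i
    rw [Finsupp.smul_apply, Finsupp.smul_apply, hS, smul_eq_mul]
  let sR : P →ₗ[R] (P →₀ S) :=
    { toFun := s
      map_add' := map_add s
      map_smul' := fun r p => by
        rw [RingHom.id_apply, hP, map_smul, hF] }
  let cR : (P →₀ S) →ₗ[R] P :=
    { toFun := Finsupp.linearCombination S (id : P → P)
      map_add' := map_add _
      map_smul' := fun r p => by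
        rw [RingHom.id_apply, hF, map_smul, hP] }
  refine Module.Projective.of_split sR cR ?_
  ext x
  exact hs x

private theorem CdSub_main {R S : Type} [Ring R] [Ring S] (f : R →+* S) [Module R S]
    (hS : ∀ (r : R) (s : S), r • s = f r * s) [Module.Free R S] (n : ℕ) :
    ∀ (M : Type) [AddCommGroup M] [Module S M] [Module R M]
      (_ : ∀ (r : R) (m : M), r • m = f r • m),
      HasProjectiveDimensionLT (ModuleCat.of S M) (n + 1) →
      HasProjectiveDimensionLT (ModuleCat.of R M) (n + 1) := by
  induction n with
  | zero =>
    intro M _ _ _ hM h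
    have h3 : Module.Projective S M :=
      (IsProjective.iff_projective _).mpr (projective_iff_hasProjectiveDimensionLT_one.mpr h)
    have h4 := CdSub_proj f hS M hM
    exact projective_iff_hasProjectiveDimensionLT_one.mp ((IsProjective.iff_projective _).mp h4)
  | succ n ih =>
    intro M _ _ _ hM h
    let ε : (M →₀ S) →ₗ[S] M := Finsupp.linearCombination S (id : M → M)
    have hε : Function.Surjective ε := fun m => ⟨Finsupp.single m 1, by simp [ε]⟩
    have hK : HasProjectiveDimensionLT (ModuleCat.of S (LinearMap.ker ε)) (n + 1) :=
      CdSub_sh ε hε n h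
    letI : Module R (LinearMap.ker ε) := Module.compHom _ f
    have hK' : ∀ (r : R) (m : LinearMap.ker ε), r • m = f r • m := fun _ _ => rfl
    have h1 := ih (LinearMap.ker ε) hK' hK
    have hF : ∀ (r : R) (x : M →₀ S), r • x = f r • x := by
      intro r x
      ext i
      rw [Finsupp.smul_apply, Finsupp.smul_apply, hS, smul_eq_mul]
    let iR : LinearMap.ker ε →ₗ[R] (M →₀ S) :=
      { toFun := Subtype.val
        map_add' := fun _ _ => rfl
        map_smul' := fun r x => by
          rw [RingHom.id_apply, hF, hK']
          rfl }
    let εR : (M →₀ S) →ₗ[R] M :=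
      { toFun := ε
        map_add' := map_add ε
        map_smul' := fun r x => by
          rw [RingHom.id_apply, hF, map_smul, hM] }
    have hFp : Module.Projective R (M →₀ S) := inferInstance
    have h2 : HasProjectiveDimensionLT (ModuleCat.of R (M →₀ S)) (n + 2) := by
      have h5 : HasProjectiveDimensionLT (ModuleCat.of R (M →₀ S)) 1 :=
        projective_iff_hasProjectiveDimensionLT_one.mp ((IsProjective.iff_projective _).mp hFp)
      exact hasProjectiveDimensionLT_of_ge _ 1 _ (by omega)
    have e2 : Function.Exact iR εR := by
      intro x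
      constructor
      · intro hx
        exact ⟨⟨x, hx⟩, rfl⟩
      · rintro ⟨y, rfl⟩
        exact y.2
    have hse := ModuleCat.shortComplex_shortExact
      (ModuleCat.shortComplexOfCompEqZero iR εR (LinearMap.ext fun x => (e2 _).mpr ⟨x, rfl⟩))
      e2 Subtype.val_injective hε
    exact hse.hasProjectiveDimensionLT_X₃ (n + 1) h1 h2

/-- The trivial module. -/
private theorem CdSub_triv {E E' : Type} [Group E] [Group E'] (φ : E' →* E)
    (r : MonoidAlgebra ℤ E') (m : ℤ) :
    (Representation.trivial ℤ E ℤ).asAlgebraHom (inc φ r) m =
      (Representation.trivial ℤ E' ℤ).asAlgebraHom r m := by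
  induction r using MonoidAlgebra.induction_linear with
  | zero => rw [map_zero, map_zero, map_zero]
  | add x y hx hy => rw [map_add, map_add, map_add, LinearMap.add_apply, LinearMap.add_apply, hx, hy]
  | single g n =>
    rw [inc, MonoidAlgebra.mapDomainRingHom_apply, MonoidAlgebra.mapDomain_single,
      Representation.asAlgebraHom_single, Representation.asAlgebraHom_single,
      LinearMap.smul_apply, LinearMap.smul_apply, Representation.trivial_apply,
      Representation.trivial_apply]

/-- The cohomological dimension of a subgroup is at most that of the group. -/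
theorem cdLE_sub {E E' : Type} [Group E] [Group E'] (φ : E' →* E) (hφ : Function.Injective φ)
    {n : ℕ} (h : Pool.Agent.Wald.CdLE n E) : Pool.Agent.Wald.CdLE n E' := by
  letI : Module (MonoidAlgebra ℤ E') (MonoidAlgebra ℤ E) := modH φ
  have hfree : Module.Free (MonoidAlgebra ℤ E') (MonoidAlgebra ℤ E) := free_gr φ hφ
  letI : Module (MonoidAlgebra ℤ E') (Representation.trivial ℤ E ℤ).asModule :=
    Module.compHom _ (inc φ)
  have h1 := CdSub_main (inc φ) (fun _ _ => rfl) n (Representation.trivial ℤ E ℤ).asModule
    (fun _ _ => rfl) h
  let e : (Representation.trivial ℤ E ℤ).asModule ≃ₗ[MonoidAlgebra ℤ E']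
      (Representation.trivial ℤ E' ℤ).asModule :=
    { ((Representation.trivial ℤ E ℤ).asModuleEquiv.toAddEquiv.trans
        (Representation.trivial ℤ E' ℤ).asModuleEquiv.symm.toAddEquiv) with
      map_smul' := fun r x => by
        show (Representation.trivial ℤ E' ℤ).asModuleEquiv.symm
          ((Representation.trivial ℤ E ℤ).asModuleEquiv (inc φ r • x)) =
          r • (Representation.trivial ℤ E' ℤ).asModuleEquiv.symm
          ((Representation.trivial ℤ E ℤ).asModuleEquiv x)
        rw [Representation.asModuleEquiv_map_smul, CdSub_triv]
        apply (Representation.trivial ℤ E' ℤ).asModuleEquiv.injective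
        rw [Representation.asModuleEquiv_map_smul, LinearEquiv.apply_symm_apply,
          LinearEquiv.apply_symm_apply] }
  exact hasProjectiveDimensionLT_of_iso e.toModuleIso (n + 1)

end Pool.Agent.WaldP
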