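import Pool.Agent.Lib.MP_8f66f0_al_WaldP.FinalK
import Pool.Agent.Lib.MP_8f66f0_al_WaldP.CdSub
import Pool.Agent.Lib.MP_8f66f0_al_WaldP.C1Sub
import Pool.Agent.Lib.MP_8f66f0_al_WaldL.ClassU

/-! # Edge groups and their subgroups -/

set_option autoImplicit false

namespace Pool.Agent.WaldP

open Pool.Agent.Wald Pool.Agent.WaldL Pool.Agent.Ind

theorem edgeU_sub {E : Type} [Group E] (h : EdgeU E) (L : Type)
    [CommRing L] [IsDomain L] (hL : IsEuc L) :
    ∀ (E' : Type) [Group E'] (φ : E' →* E), Function.Injective φ → Group.FG E' →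
      C1 (MonoidAlgebra L E') ∧ ∃ k, PDk (MonoidAlgebra L E') k := by
  have := isPrincipal_of_isEuc hL
  induction h with
  | cd h =>
    intro E' _ φ hφ _
    have h2 := cdLE_sub φ hφ h
    exact ⟨(ker_pl sub_pid c1_pl L _ h2).1, 0, pdk_of_cd_L sub_pid 0 h2⟩
  | c1 n hC h =>
    intro E' _ φ hφ _
    have h2 := cdLE_sub φ hφ h
    exact ⟨c1_sub φ hφ (hC L hL), n, pdk_of_cd_L sub_pid n (h2.mono (Nat.le_add_right n 2))⟩
  | tree n T hT h =>
    intro E' _ φ hφ _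
    have h2 := cdLE_sub φ hφ h
    exact ⟨c1_sub φ hφ (WaldTL.c1_of_tree L T (hT L hL).1 (hT L hL).2), n,
      pdk_of_cd_L sub_pid n (h2.mono (Nat.le_add_right n 2))⟩
  | cx n T hT h =>
    intro E' _ φ hφ _
    have h2 := cdLE_sub φ hφ h
    exact ⟨c1_sub φ hφ (WaldX.c1_cx L _ T (hT L hL).1 (hT L hL).2.1 (hT L hL).2.2), n,
      pdk_of_cd_L sub_pid n (h2.mono (Nat.le_add_right n 2))⟩
  | ext n π hQ hN h =>
    intro E' _ φ hφ _
    have h2 := cdLE_sub φ hφ (WaldX.cdLE_ext π h hQ)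
    exact ⟨c1_sub φ hφ (WaldX.c1_ext L π hQ hN), n, pdk_of_cd_L sub_pid n h2⟩
  | loc _ ih =>
    intro E' _ φ hφ hfg
    have h2 : φ.range.FG := by
      have h3 : Group.FG φ.range := Group.fg_of_surjective (f := φ.rangeRestrict)
        φ.rangeRestrict_surjective
      exact (Group.fg_iff_subgroup_fg φ.range).1 h3
    exact ih φ.range h2 E' φ.rangeRestrict (fun x y hxy => hφ (congrArg Subtype.val hxy)) hfg

theorem edgeS_of_edgeU {G : Type} [Group G] {D : Subgroup G} (h : EdgeU D)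
    (L : Type) [CommRing L] [IsDomain L] (hL : IsEuc L) : EdgeS L D := by
  intro D' hD' hfg
  exact edgeU_sub h L hL D' (Subgroup.inclusion hD') (Subgroup.inclusion_injective hD')
    ((Group.fg_iff_subgroup_fg D').2 hfg)

theorem kk_pushout_k (h1 : S_PSF) (h2 : S_One) (G : Bool → Type) [∀ i, Group (G i)] (E : Type)
    [Group E] (φ : ∀ i, E →* G i) (hφ : ∀ i, Function.Injective (φ i)) (hG : ∀ i, KK (G i))
    (hE : KK E) (r : ℕ) (hN : ∀ i, ∀ w ∈ Alt φ r i,
      EdgeU ↥((Monoid.PushoutI.base φ).range ⊓ cj w (Monoid.PushoutI.base φ).range)) :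
    KK (Monoid.PushoutI φ) := fun L _ _ hL =>
  whTL_of_whT (h2 L hL _) (whT_pushout_k G E φ hφ (fun i => whT_of_whTL (hG i L hL)) r
    (fun i w hw => edgeS_of_edgeU (hN i w hw) L hL) (kk_projSF h1 hE L hL))

theorem kk_hnn_k (h1 : S_PSF) (h2 : S_One) (G : Type) [Group G] (A B : Subgroup G) (φ : A ≃* B)
    (hG : KK G) (hA : KK A) (r : ℕ) (hN : ∀ i, ∀ w ∈ AltH φ r i,
      EdgeU ↥(((HNNExtension.of (φ := φ)).comp B.subtype).range ⊓
        cj w ((HNNExtension.of (φ := φ)).comp B.subtype).range)) :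
    KK (HNNExtension G A B φ) := fun L _ _ hL =>
  whTL_of_whT (h2 L hL _) (whT_hnn_k G A B φ (whT_of_whTL (hG L hL)) r
    (fun i w hw => edgeS_of_edgeU (hN i w hw) L hL) (kk_projSF h1 hA L hL))

end Pool.Agent.WaldP
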