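import Pool.Agent.Lib.MP_8f66f0_al_WaldP.FamPath

/-! # Vanishing for nilpotent matrices over path systems: conclusion -/

set_option autoImplicit false

namespace Pool.Agent.WaldP

open Pool.Agent.Wald Finsupp Matrix

section FamNil
variable {G : Type} [Group G] {T : Type} {LL : Type} [CommRing LL]

/-- All finitely generated subgroups of `D` satisfy the hypotheses of Theorem N. -/
def EdgeS (LL : Type) [CommRing LL] (D : Subgroup G) : Prop :=
  ∀ D' : Subgroup G, D' ≤ D → D'.FG →
    C1 (MonoidAlgebra LL D') ∧ ∃ k, PDk (MonoidAlgebra LL D') k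

theorem PNil.vanish_fin {S : PSys G T} {n : ℕ} {ty : Fin n → T} (N : PNil LL S (Fin n) ty)
    (hD : ∀ a, EdgeS LL (S.D (ty a))) {K : Type} [CommGroup K]
    (κ : K1Fun (MonoidAlgebra LL G) K) : κ.f (1 - N.ν) = 1 := by
  classical
  obtain ⟨ν, hν⟩ : ∃ ν, ν = N.ν := ⟨_, rfl⟩
  have hpow := N.pow_supp
  have hsupp := N.supp
  have hm := N.pow
  obtain ⟨m, hm'⟩ : ∃ m, m = N.m := ⟨_, rfl⟩
  rw [← hν, ← hm'] at hm
  rw [← hν] at hpow hsupp ⊢
  let ι : Type := Set.range ty
  have hι : Fintype ι := Set.fintypeRange ty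
  let ty₁ : Fin n → ι := fun a => ⟨ty a, a, rfl⟩
  let F : Finset G := (Finset.range (m + 2)).biUnion fun i =>
    Finset.univ.biUnion fun ab : Fin n × Fin n => ((ν ^ i) ab.1 ab.2).coeff.support
  have hz : ∀ i, m ≤ i → ν ^ i = 0 := by
    intro i hi
    obtain ⟨j, rfl⟩ := Nat.exists_eq_add_of_le hi
    rw [pow_add, hm, Matrix.zero_mul]
  have hF : ∀ i a b g, g ∉ F → ((ν ^ i) a b).coeff g = 0 := by
    intro i a b g hg
    by_cases hi : i < m + 2
    · by_contra hne
      refine hg (Finset.mem_biUnion.mpr ⟨i, Finset.mem_range.mpr hi, ?_⟩)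
      exact Finset.mem_biUnion.mpr ⟨(a, b), Finset.mem_univ _, Finsupp.mem_support_iff.mpr hne⟩
    · rw [hz i (by omega)]
      rfl
  let D' : ι → Subgroup G := fun t => Subgroup.closure
    (((F ×ˢ F).image fun p => p.1 * p.2⁻¹).filter (· ∈ S.D t.1) : Finset G)
  have hD'le : ∀ t, D' t ≤ S.D t.1 := by
    intro t
    refine (Subgroup.closure_le _).2 fun x hx => ?_
    exact (Finset.mem_filter.1 hx).2
  have hD'FG : ∀ t, (D' t).FG := fun t => ⟨_, rfl⟩
  have hD'mem : ∀ t : ι, ∀ w ∈ F, ∀ g ∈ F, w * g⁻¹ ∈ S.D t.1 → w * g⁻¹ ∈ D' t := by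
    intro t w hw g hg h
    refine Subgroup.subset_closure ?_
    exact Finset.mem_coe.2 (Finset.mem_filter.2
      ⟨Finset.mem_image.2 ⟨(w, g), Finset.mem_product.2 ⟨hw, hg⟩, rfl⟩, h⟩)
  have hgood : ∀ t : ι, C1 (MonoidAlgebra LL (D' t)) ∧ ∃ k, PDk (MonoidAlgebra LL (D' t)) k := by
    rintro ⟨t, a, rfl⟩
    exact hD a _ (hD'le _) (hD'FG _)
  let A : ι → Type := fun t => MonoidAlgebra LL (D' t)
  let _ : ∀ t : ι, Module (A t) (MonoidAlgebra LL G) := fun t => WaldL.modH LL (D' t).subtype
  have _ : ∀ t : ι, IsScalarTower (A t) (MonoidAlgebra LL G) (MonoidAlgebra LL G) :=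
    fun t => WaldL.towerH LL (D' t).subtype
  have hFl : ∀ t, RFlat (A t) (MonoidAlgebra LL G) := fun t =>
    WaldL.rflat_gr (D' t).subtype (D' t).subtype_injective
  have hPr : ∀ t, Module.Projective (A t) (MonoidAlgebra LL G) := fun t => by
    have : Module.Free (A t) (MonoidAlgebra LL G) :=
      WaldL.free_gr (D' t).subtype (D' t).subtype_injective
    exact Module.Projective.of_free
  have hsmul : ∀ (t : ι) (r : A t) (y : MonoidAlgebra LL G),
      r • y = WaldL.inc (D' t).subtype r * y := fun _ _ _ => rfl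
  have hio : ∀ (t : ι) (r : A t), io (A t) (MonoidAlgebra LL G) r =
      WaldL.inc (D' t).subtype r := fun t r => by
    change r • (1 : MonoidAlgebra LL G) = _
    rw [hsmul, mul_one]
  have hincs : ∀ (t : ι) (r : A t), WaldL.SuppIn (D' t : Set G) (WaldL.inc (D' t).subtype r) := by
    intro t r
    have h1 := WaldL.suppIn_inc (D' t).subtype r
    refine h1.mono ?_
    rintro _ ⟨x, rfl⟩
    exact x.2
  let e : (Fin n × F) ≃ Fin (Fintype.card (Fin n × F)) := Fintype.equivFin _
  let B : ℕ → ℕ := fun i => match i with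
    | 0 => n
    | _ + 1 => Fintype.card (Fin n × F)
  let h : ∀ i, Matrix (Fin n) (Fin (B i)) (∀ t, A t) := fun i => match i with
    | 0 => (1 : Matrix (Fin n) (Fin n) (∀ t, A t))
    | i + 1 => (Matrix.of fun a k => fun t =>
      if ty₁ a = t then cf (D' t) (((e.symm k).2 : F) : G) ((ν ^ (i + 1)) a (e.symm k).1) else 0 :
        Matrix (Fin n) (Fin (Fintype.card (Fin n × F))) (∀ t, A t))
  -- the meaning of the kernels
  have hK : ∀ i (x : Fin n → ∀ t, A t), vecMul x (h (i + 1)) = 0 → ∀ t l,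
      ∑ a, (if ty₁ a = t then x a t • (ν ^ (i + 1)) a l else 0) = 0 := by
    intro i x hx t l
    have e0 : ∀ g : F, cf (D' t) (g : G)
        (∑ a, (if ty₁ a = t then x a t • (ν ^ (i + 1)) a l else 0)) = 0 := by
      intro g
      have e1 : vecMul x (h (i + 1)) (e (l, g)) t = 0 := by
        rw [hx]
        rfl
      rw [← e1]
      change _ = (∑ a, x a * h (i + 1) a (e (l, g))) t
      rw [cf_sum, Finset.sum_apply]
      refine Finset.sum_congr rfl fun a _ => ?_
      change _ = x a t * (if ty₁ a = t then cf (D' t) (((e.symm (e (l, g))).2 : F) : G)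
        ((ν ^ (i + 1)) a (e.symm (e (l, g))).1) else 0)
      rw [Equiv.symm_apply_apply]
      by_cases ha : ty₁ a = t
      · rw [if_pos ha, if_pos ha, hsmul]
        exact cf_mul (D' t) g (x a t) _
      · rw [if_neg ha, if_neg ha, mul_zero, cf_zero]
    have e2 : WaldL.SuppIn {w | ∃ u ∈ (D' t : Set G), ∃ g ∈ (F : Set G), w = u * g}
        (∑ a, (if ty₁ a = t then x a t • (ν ^ (i + 1)) a l else 0)) := by
      refine WaldL.SuppIn.sum fun a _ => ?_
      by_cases ha : ty₁ a = t
      · rw [if_pos ha, hsmul]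
        refine (hincs t (x a t)).mul (T := (F : Set G)) (fun g hg => hF _ a l g hg) ?_
        intro u hu g hg
        exact ⟨u, hu, g, hg, rfl⟩
      · rw [if_neg ha]
        exact WaldL.SuppIn.zero
    ext w
    by_cases hw : w ∈ {w | ∃ u ∈ (D' t : Set G), ∃ g ∈ (F : Set G), w = u * g}
    · obtain ⟨u, hu, g, hg, rfl⟩ := hw
      have e3 := coeff_cf (D' t) g
        (∑ a, (if ty₁ a = t then x a t • (ν ^ (i + 1)) a l else 0)) ⟨u, hu⟩
      rw [e0 ⟨g, hg⟩] at e3
      exact e3.symm
    · rw [e2 w hw]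
      rfl
  have hu : IsUnit (1 - ν) := by
    have h1 : IsNilpotent ν := ⟨m, hm⟩
    exact h1.isUnit_one_sub
  refine fam_vanish hFl hPr (fun t => (hgood t).1) (fun t => (hgood t).2) ty₁ ν hu (m + 1) B h
    ?_ ?_ ?_ κ
  · intro x hx
    have h1 : vecMul x (1 : Matrix (Fin n) (Fin n) (∀ t, A t)) = 0 := hx
    rw [Matrix.vecMul_one] at h1
    exact h1
  · ext1 a k
    funext t
    change (if ty₁ a = t then cf (D' t) (((e.symm k).2 : F) : G)
      ((ν ^ (m + 1)) a (e.symm k).1) else 0) = 0
    rw [hz (m + 1) (by omega), Matrix.zero_apply, cf_zero, ite_self]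
  · intro i x hx c t u
    cases i with
    | zero =>
      refine Finset.sum_eq_zero fun b _ => ?_
      have h1 := hK 0 x hx t b
      rw [zero_add, pow_one] at h1
      rw [h1, ite_self, zero_mul]
    | succ i =>
      obtain ⟨y, hy⟩ : ∃ y : Fin n → MonoidAlgebra LL G, ∀ b, y b =
        ∑ a, (if ty₁ a = t then x a t • ν a b else 0) := ⟨_, fun _ => rfl⟩
      obtain ⟨⟨l, g⟩, hlg⟩ : ∃ p, e.symm c = p := ⟨_, rfl⟩
      have h1 : ∀ b, (if ty₁ b = u then ∑ a, (if ty₁ a = t then x a t • ν a b else 0) else 0) *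
          io (A u) (MonoidAlgebra LL G) (h (i + 1) b c u) =
          (if ty b = u.1 then y b * WaldL.rs (cs (S.D u.1) (g : G)) ((ν ^ (i + 1)) b l) else 0) *
            MonoidAlgebra.single (g : G)⁻¹ (1 : LL) := by
        intro b
        by_cases hb : ty₁ b = u
        · have hb' : ty b = u.1 := congrArg Subtype.val hb
          rw [if_pos hb, if_pos hb', hio, ← hy]
          have h2 : h (i + 1) b c u = cf (D' u) (g : G) ((ν ^ (i + 1)) b l) := by
            change (if ty₁ b = u then cf (D' u) (((e.symm c).2 : F) : G)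
              ((ν ^ (i + 1)) b (e.symm c).1) else 0) = _
            rw [if_pos hb, hlg]
          rw [h2, inc_cf (S.D u.1) (D' u) (hD'le u) g _ ?_, mul_assoc]
          intro w hw hwD
          refine hD'mem u w ?_ g g.2 hwD
          by_contra hwF
          exact hw (hF _ _ _ _ hwF)
        · have hb' : ¬ ty b = u.1 := fun h => hb (Subtype.ext h)
          rw [if_neg hb, if_neg hb', zero_mul, zero_mul]
      rw [Finset.sum_congr rfl fun b _ => h1 b, ← Finset.sum_mul]
      have h3 := famPath_key S ty (i + 1) (ty l) t.1 y (fun b => (ν ^ (i + 1)) b l) u.1 (g : G)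
        ?_ (fun b => hpow (i + 1) b l) ?_
      · rw [h3, zero_mul]
      · intro b
        rw [hy]
        refine WaldL.SuppIn.sum fun a _ => ?_
        by_cases ha : ty₁ a = t
        · rw [if_pos ha, hsmul]
          refine (hincs t (x a t)).mul (hsupp a b) ?_
          intro d hd v hv
          have ha' : ty a = t.1 := congrArg Subtype.val ha
          rw [ha'] at hv
          exact S.left _ _ d (hD'le t hd) v hv
        · rw [if_neg ha]
          exact WaldL.SuppIn.zero
      · have h4 := hK (i + 1) x hx t l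
        rw [← h4]
        have h5 : ∀ b, y b * (ν ^ (i + 1)) b l =
            ∑ a, (if ty₁ a = t then x a t • (ν a b * (ν ^ (i + 1)) b l) else 0) := by
          intro b
          rw [hy, Finset.sum_mul]
          refine Finset.sum_congr rfl fun a _ => ?_
          by_cases ha : ty₁ a = t
          · rw [if_pos ha, if_pos ha, smul_mul_assoc]
          · rw [if_neg ha, if_neg ha, zero_mul]
        rw [Finset.sum_congr rfl fun b _ => h5 b, Finset.sum_comm]
        refine Finset.sum_congr rfl fun a _ => ?_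
        by_cases ha : ty₁ a = t
        · simp only [if_pos ha]
          rw [← Finset.smul_sum, pow_succ' ν (i + 1), Matrix.mul_apply]
        · simp only [if_neg ha]
          exact Finset.sum_const_zero

/-- Vanishing for nilpotent matrices over path systems with small stabilizers. -/
theorem PNil.vanish {S : PSys G T} {I : Type} [Fintype I] [DecidableEq I] {ty : I → T}
    (N : PNil LL S I ty) (hD : ∀ a, EdgeS LL (S.D (ty a))) {K : Type} [CommGroup K]
    (κ : K1Fun (MonoidAlgebra LL G) K) : κ.f (1 - N.ν) = 1 := by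
  let e : I ≃ Fin (Fintype.card I) := Fintype.equivFin I
  have hpow : ∀ k, (N.ν.submatrix e.symm e.symm) ^ k = (N.ν ^ k).submatrix e.symm e.symm := by
    intro k
    induction k with
    | zero => rw [pow_zero, pow_zero, Matrix.submatrix_one_equiv]
    | succ k ih => rw [pow_succ, ih, pow_succ, Matrix.submatrix_mul_equiv]
  let N' : PNil LL S (Fin (Fintype.card I)) (fun a => ty (e.symm a)) :=
    ⟨N.ν.submatrix e.symm e.symm, fun a b => N.supp _ _, N.m, by
      rw [hpow, N.pow]
      rfl⟩
  have h1 := N'.vanish_fin (fun a => hD _) κ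
  have hu : IsUnit (1 - N.ν) := by
    have h1 : IsNilpotent N.ν := ⟨N.m, N.pow⟩
    exact h1.isUnit_one_sub
  have h2 := κ.reindex e (1 - N.ν) hu
  rw [← h2, ← h1]
  congr 1
  change _ = 1 - N.ν.submatrix e.symm e.symm
  rw [← Matrix.submatrix_one_equiv e.symm]
  rfl

end FamNil

end Pool.Agent.WaldP
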