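import Pool.Agent.Lib.MP_8f66f0_al_Wald.C1Fmod
import Pool.Agent.Lib.MP_8f66f0_al_Wald.NilVanPd

/-! Theorem N in matrix form, for general rings. -/

set_option autoImplicit false

namespace Pool.Agent.WaldP

open Pool.Agent.Wald Finsupp Matrix

/-- the linear map given by the rows of a matrix -/
private noncomputable def GenMat_lin {R Λ : Type} [Ring R] [Ring Λ] [Module R Λ] {n : ℕ} {q : Type}
    [Finite q] (M : Matrix (Fin n) q Λ) : (Fin n →₀ R) →ₗ[R] (q →₀ Λ) :=
  Finsupp.linearCombination R fun a => Finsupp.equivFunOnFinite.symm (M a)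

private theorem GenMat_lin_apply {R Λ : Type} [Ring R] [Ring Λ] [Module R Λ] {n : ℕ} {q : Type}
    [Finite q] (M : Matrix (Fin n) q Λ) (x : Fin n →₀ R) (b : q) :
    GenMat_lin M x b = ∑ a, x a • M a b := by
  unfold GenMat_lin
  have h1 := Finsupp.sum_fintype x (fun i a => a • Finsupp.equivFunOnFinite.symm (M i))
    (fun i => zero_smul R _)
  rw [Finsupp.linearCombination_apply, h1, Finsupp.finsetSum_apply]
  rfl

/-- Theorem N in matrix form. -/
theorem nilVanish_mat {R Λ : Type} [Ring R] [Ring Λ] [Module R Λ] [IsScalarTower R Λ Λ]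
    (hF : RFlat R Λ) [Module.Projective R Λ] (hC : C1 R) {k : ℕ} (hP : PDk R k) {n : ℕ}
    (ν : Matrix (Fin n) (Fin n) Λ) (m : ℕ) (B : ℕ → ℕ)
    (h : ∀ i, Matrix (Fin n) (Fin (B i)) R)
    (h0 : ∀ x : Fin n → R, vecMul x (h 0) = 0 → x = 0) (hm : h m = 0)
    (hh : ∀ i (x : Fin n → R), vecMul x (h (i + 1)) = 0 →
      vecMul (vecMul (fun a => io R Λ (x a)) ν) ((h i).map (io R Λ)) = 0)
    (hu : IsUnit (1 - ν)) {K : Type} [CommGroup K] (κ : K1Fun Λ K) :
    κ.f (1 - ν) = 1 := by
  have hC1 : C1F R Λ := c1F_of_c1 hC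
  let ν' : (Fin n →₀ R) →ₗ[R] (Fin n →₀ Λ) :=
    GenMat_lin ν
  let h' : ∀ i, (Fin n →₀ R) →ₗ[R]
    (Fin (B i) →₀ R) := fun i => GenMat_lin (h i)
  have hh' : ∀ i x b, h' i x b = vecMul (fun a => x a) (h i) b := fun i x b =>
    GenMat_lin_apply (h i) x b
  have hν' : ∀ x b, ν' x b = vecMul (fun a => io R Λ (x a)) ν b := fun x b =>
    (GenMat_lin_apply ν x b).trans
      (Finset.sum_congr rfl fun a _ => (trLem_io_mul (x a) (ν a b)).symm)
  have hmat : matOf ν' = ν := by
    refine Matrix.ext fun a b => ?_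
    show ν' (single a 1) b = ν a b
    rw [hν']
    have h1 : (fun c => io R Λ ((single a (1 : R) : Fin n →₀ R) c))
        = Pi.single a 1 := by
      funext c
      by_cases hc : c = a
      · subst hc
        rw [Finsupp.single_eq_same, Pi.single_eq_same, map_one]
      · rw [Finsupp.single_eq_of_ne hc, Pi.single_eq_of_ne hc, map_zero]
    rw [h1, Matrix.single_one_vecMul]
    rfl
  have hbc : ∀ i (y : Fin n →₀ Λ) b, bc (Λ) (h' i) y b =
      vecMul (fun a => y a) ((h i).map (io R Λ)) b := by
    intro i y b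
    unfold bc
    have h0 := Finsupp.sum_fintype y (fun j a => a • (emb (R) (Λ)
      (Fin (B i))) ((h' i) (single j 1))) (fun i => zero_smul (Λ) _)
    rw [Finsupp.linearCombination_apply, h0, Finsupp.finsetSum_apply]
    refine Finset.sum_congr rfl fun a _ => ?_
    rw [Finsupp.smul_apply, smul_eq_mul]
    congr 1
    unfold emb
    rw [Finsupp.mapRange.linearMap_apply, Finsupp.mapRange_apply,
      LinearMap.toSpanSingleton_apply, hh']
    have h1 : vecMul (fun c => (single a (1 : R) :
        Fin n →₀ R) c) (h i) b = h i a b := by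
      have h2 : (fun c => (single a (1 : R) : Fin n →₀ R) c)
          = Pi.single a 1 := by
        funext c
        by_cases hc : c = a
        · subst hc
          rw [Finsupp.single_eq_same, Pi.single_eq_same]
        · rw [Finsupp.single_eq_of_ne hc, Pi.single_eq_of_ne hc]
      rw [h2, Matrix.single_one_vecMul]
      rfl
    rw [h1]
    rfl
  have key := nilVanish_pd hF hC1 hP ν' m (fun i => Fin (B i)) h' ?_ ?_ ?_ ?_ κ
  · rw [hmat] at key
    exact key
  · intro x hx
    have h1 : (fun a => x a) = 0 := h0 _ (by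
      funext b
      rw [← hh', hx]
      rfl)
    ext1 a
    exact congrFun h1 a
  · intro x
    ext1 b
    rw [hh', hm, Matrix.vecMul_zero]
    rfl
  · intro i x hx
    have h1 := hh i (fun a => x a) (by
      funext b
      rw [← hh', hx]
      rfl)
    ext1 b
    rw [hbc]
    have h2 : (fun a => ν' x a) = vecMul (fun a => io R Λ (x a)) ν := funext fun a => hν' x a
    rw [h2, h1]
    rfl
  · rw [hmat]
    exact hu

end Pool.Agent.WaldP
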