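import Pool.Agent.Lib.MP_8f66f0_al_WaldP.ProdDefs

/-! # WaldP: condition (C1) for finite products of rings -/

set_option autoImplicit false

namespace Pool.Agent.WaldP

open Pool.Agent.Wald Finsupp Matrix

/-- Transport of (C1) from finite types to `Fin n`. -/
private theorem prodC1_fin {R : Type} [Ring R] {a b s : ℕ} (h : Matrix (Fin a) (Fin b) R)
    (k : Matrix (Fin s) (Fin a) R)
    (H : ∃ (S : Type) (_ : Fintype S) (k' : Matrix S (Fin a) R) (T : Type) (_ : Fintype T)
      (ρ : Matrix T (Fin s) R) (ρ' : Matrix T S R), k' * h = 0 ∧ ρ * k + ρ' * k' = 0 ∧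
      ∀ c : Fin s → R, Matrix.vecMul c k = 0 → ∃ z : T → R, Matrix.vecMul z ρ = c ∧
        Matrix.vecMul z ρ' = 0) :
    ∃ (s' : ℕ) (k' : Matrix (Fin s') (Fin a) R) (T : ℕ) (ρ : Matrix (Fin T) (Fin s) R)
      (ρ' : Matrix (Fin T) (Fin s') R), k' * h = 0 ∧ ρ * k + ρ' * k' = 0 ∧
      ∀ c : Fin s → R, Matrix.vecMul c k = 0 → ∃ z : Fin T → R, Matrix.vecMul z ρ = c ∧
        Matrix.vecMul z ρ' = 0 := by
  obtain ⟨S, _, k', T, _, ρ, ρ', h1, h2, h3⟩ := H
  let eS := Fintype.equivFin S
  let eT := Fintype.equivFin T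
  refine ⟨Fintype.card S, k'.submatrix eS.symm id, Fintype.card T, ρ.submatrix eT.symm id,
    ρ'.submatrix eT.symm eS.symm, ?_, ?_, ?_⟩
  · ext x y
    exact congrFun (congrFun h1 (eS.symm x)) y
  · ext x y
    have h4 := congrFun (congrFun h2 (eT.symm x)) y
    refine Eq.trans ?_ h4
    simp only [Matrix.add_apply, Matrix.mul_apply, Matrix.submatrix_apply, id]
    congr 1
    exact Equiv.sum_comp eS.symm (fun l => ρ' (eT.symm x) l * k' l y)
  · intro c hc
    obtain ⟨z, hz1, hz2⟩ := h3 c hc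
    refine ⟨z ∘ eT.symm, ?_, ?_⟩
    · rw [← hz1]
      ext l
      exact Equiv.sum_comp eT.symm (fun t => z t * ρ t l)
    · ext l
      have h4 := congrFun hz2 (eS.symm l)
      refine Eq.trans ?_ h4
      exact Equiv.sum_comp eT.symm (fun t => z t * ρ' t (eS.symm l))

private theorem prodC1_mul {ι : Type} [DecidableEq ι] {A : ι → Type} [∀ i, Ring (A i)]
    (i : ι) (x : A i) (r : ∀ i, A i) : (Pi.single i x : ∀ i, A i) * r = Pi.single i (x * r i) := by
  funext j
  by_cases hj : j = i
  · subst hj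
    simp
  · simp [hj]

private theorem prodC1_sum {ι : Type} [DecidableEq ι] {A : ι → Type} [∀ i, Ring (A i)]
    {T : Type} [Fintype T] (i : ι) (f : T → A i) :
    ∑ t, (Pi.single i (f t) : ∀ i, A i) = Pi.single i (∑ t, f t) :=
  (map_sum (AddMonoidHom.single A i) f Finset.univ).symm

theorem c1_prod {ι : Type} [Fintype ι] [DecidableEq ι] {A : ι → Type} [∀ i, Ring (A i)]
    (h : ∀ i, C1 (A i)) : C1 (∀ i, A i) := by
  intro a b s hm k hk
  apply prodC1_fin
  have hk' : ∀ i, k.map (fun r => r i) * hm.map (fun r => r i) = 0 := by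
    intro i
    have h1 := congrArg (fun M => M.map (Pi.evalRingHom A i)) hk
    simp only [Matrix.map_mul] at h1
    refine Eq.trans ?_ (h1.trans ?_)
    · rfl
    · ext x y
      rfl
  choose s' k' T ρ ρ' p1 p2 p3 using fun i => h i a b s _ _ (hk' i)
  refine ⟨Σ i, Fin (s' i), inferInstance, fun p j => Pi.single p.1 (k' p.1 p.2 j),
    Σ i, Fin (T i), inferInstance, fun p l => Pi.single p.1 (ρ p.1 p.2 l),
    Matrix.blockDiagonal' (fun i => (ρ' i).map (Pi.single i)), ?_, ?_, ?_⟩
  · ext1 p j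
    change ∑ l, (Pi.single p.1 (k' p.1 p.2 l) : ∀ i, A i) * hm l j = 0
    simp only [prodC1_mul]
    rw [prodC1_sum]
    have h1 := congrFun (congrFun (p1 p.1) p.2) j
    change ∑ l, k' p.1 p.2 l * hm l j p.1 = 0 at h1
    rw [h1]
    simp
  · ext1 p j
    change ∑ l, (Pi.single p.1 (ρ p.1 p.2 l) : ∀ i, A i) * k l j +
      ∑ q : (Σ i, Fin (s' i)), Matrix.blockDiagonal' (fun i => (ρ' i).map (Pi.single i)) p q *
        (Pi.single q.1 (k' q.1 q.2 j) : ∀ i, A i) = 0
    rw [Fintype.sum_sigma, Finset.sum_eq_single p.1]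
    · obtain ⟨i, t⟩ := p
      simp only [Matrix.blockDiagonal'_apply_eq, Matrix.map_apply, prodC1_mul, Pi.single_eq_same]
      rw [prodC1_sum, prodC1_sum, ← Pi.single_add]
      have h1 := congrFun (congrFun (p2 i) t) j
      change ∑ l, ρ i t l * k l j i + ∑ l, ρ' i t l * k' i l j = 0 at h1
      rw [h1]
      simp
    · intro i _ hi
      apply Finset.sum_eq_zero
      intro l _
      obtain ⟨i', t⟩ := p
      rw [Matrix.blockDiagonal'_apply_ne _ _ _ (Ne.symm hi), zero_mul]
    · intro hp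
      exact absurd (Finset.mem_univ _) hp
  · intro c hc
    have hc' : ∀ i, Matrix.vecMul (fun l => c l i) (k.map (fun r => r i)) = 0 := by
      intro i
      ext j
      have h1 := congrFun (congrFun hc j) i
      change (∑ l, c l * k l j) i = 0 at h1
      rw [Finset.sum_apply] at h1
      exact h1
    choose z hz1 hz2 using fun i => p3 i _ (hc' i)
    refine ⟨fun p => Pi.single p.1 (z p.1 p.2), ?_, ?_⟩
    · ext1 l
      change ∑ p : (Σ i, Fin (T i)), (Pi.single p.1 (z p.1 p.2) : ∀ i, A i) *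
        Pi.single p.1 (ρ p.1 p.2 l) = c l
      rw [Fintype.sum_sigma]
      simp only [prodC1_mul, Pi.single_eq_same]
      simp only [prodC1_sum]
      rw [Finset.univ_sum_single]
      funext i
      exact congrFun (hz1 i) l
    · ext1 q
      change ∑ p : (Σ i, Fin (T i)), (Pi.single p.1 (z p.1 p.2) : ∀ i, A i) *
        Matrix.blockDiagonal' (fun i => (ρ' i).map (Pi.single i)) p q = 0
      rw [Fintype.sum_sigma, Finset.sum_eq_single q.1]
      · obtain ⟨i, l⟩ := q
        simp only [Matrix.blockDiagonal'_apply_eq, Matrix.map_apply, prodC1_mul,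
          Pi.single_eq_same]
        rw [prodC1_sum]
        have h1 := congrFun (hz2 i) l
        change ∑ t, z i t * ρ' i t l = 0 at h1
        rw [h1]
        simp
      · intro i _ hi
        apply Finset.sum_eq_zero
        intro t _
        obtain ⟨i', l⟩ := q
        rw [Matrix.blockDiagonal'_apply_ne _ _ _ hi, mul_zero]
      · intro hp
        exact absurd (Finset.mem_univ _) hp

end Pool.Agent.WaldP
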