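import Pool.Agent.Lib.MP_8f66f0_al_WaldP.ProdDefs

/-! # WaldP: projective dimension conditions for finite products of rings -/

set_option autoImplicit false
set_option linter.unusedSectionVars false

namespace Pool.Agent.WaldP

open Pool.Agent.Wald Finsupp Matrix

private theorem prodPd_split {R : Type} [Ring R] {J' J B : Type}
    (d : (J →₀ R) →ₗ[R] (B →₀ R)) (d' : (J' →₀ R) →ₗ[R] (J →₀ R))
    (hd' : LinearMap.range d' = LinearMap.ker d) (hp : Module.Projective R (LinearMap.ker d)) :
    Module.Projective R (LinearMap.ker d') := by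
  have hmem : ∀ w, d' w ∈ LinearMap.ker d := fun w => hd' ▸ LinearMap.mem_range_self d' w
  obtain ⟨d'', hd''⟩ : ∃ d'' : (J' →₀ R) →ₗ[R] LinearMap.ker d, ∀ w, (d'' w : J →₀ R) = d' w :=
    ⟨d'.codRestrict (LinearMap.ker d) hmem, fun _ => rfl⟩
  have hsurj : Function.Surjective d'' := by
    rintro ⟨y, hy⟩
    have h1 : y ∈ LinearMap.range d' := by rw [hd']; exact hy
    obtain ⟨w, hw⟩ := h1
    exact ⟨w, Subtype.ext ((hd'' w).trans hw)⟩
  obtain ⟨s, hs⟩ := Module.projective_lifting_property d'' LinearMap.id hsurj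
  have hs' : ∀ x, d'' (s x) = x := fun x => LinearMap.congr_fun hs x
  have hdk : ∀ z : LinearMap.ker d', d'' (z : J' →₀ R) = 0 := fun z => Subtype.ext (by
    rw [hd'']
    exact z.2)
  have hdk' : ∀ w, d'' w = 0 → d' w = 0 := fun w hw => by
    rw [← hd'', hw]
    rfl
  obtain ⟨p, hp'⟩ : ∃ p : (J' →₀ R) →ₗ[R] LinearMap.ker d', ∀ w,
      (p w : J' →₀ R) = w - s (d'' w) :=
    ⟨(LinearMap.id - s ∘ₗ d'').codRestrict (LinearMap.ker d') fun w => by
      rw [LinearMap.mem_ker]
      apply hdk'
      rw [LinearMap.sub_apply, LinearMap.id_apply, LinearMap.comp_apply, map_sub, hs', sub_self],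
      fun _ => rfl⟩
  refine Module.Projective.of_split (LinearMap.ker d').subtype p (LinearMap.ext fun z =>
    Subtype.ext ?_)
  change (p (z : J' →₀ R) : J' →₀ R) = z
  rw [hp', hdk, map_zero, sub_zero]

private theorem prodPd_succ {R : Type} [Ring R] (k : ℕ) : ∀ {J B : Type}
    (d : (J →₀ R) →ₗ[R] (B →₀ R)), PdK R k d → PdK R (k + 1) d := by
  induction k with
  | zero =>
    intro J B d h J' d' hd'
    exact prodPd_split d d' hd' h
  | succ k ih =>
    intro J B d h J' d' hd'
    exact ih d' (h J' d' hd')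

theorem pdk_mono {R : Type} [Ring R] {k l : ℕ} (hkl : k ≤ l) (h : PDk R k) : PDk R l := by
  induction l, hkl using Nat.le_induction with
  | base => exact h
  | succ l _ ih => exact fun a b e J d hd => prodPd_succ l d (ih a b e J d hd)

section Prod
variable {ι : Type} [Fintype ι] [DecidableEq ι] {A : ι → Type} [∀ i, Ring (A i)]

/-- The component. -/
private noncomputable def prodPd_pr (i : ι) (J : Type) : (J →₀ (∀ i, A i)) →+ (J →₀ A i) :=
  Finsupp.mapRange.addMonoidHom (Pi.evalAddMonoidHom A i)

/-- Elements over one factor, seen over the product. -/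
private noncomputable def prodPd_up (i : ι) (J : Type) : (J →₀ A i) →+ (J →₀ (∀ i, A i)) :=
  Finsupp.mapRange.addMonoidHom (AddMonoidHom.single A i)

private theorem prodPd_pr_apply (i : ι) {J : Type} (w : J →₀ (∀ i, A i)) (j : J) :
    prodPd_pr i J w j = w j i := rfl

private theorem prodPd_up_apply (i : ι) {J : Type} (w : J →₀ A i) (j : J) :
    prodPd_up i J w j = Pi.single i (w j) := rfl

private theorem prodPd_pr_smul (i : ι) {J : Type} (r : ∀ i, A i) (w : J →₀ (∀ i, A i)) :
    prodPd_pr i J (r • w) = r i • prodPd_pr i J w := by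
  ext j
  rfl

private theorem prodPd_up_smul (i : ι) {J : Type} (r : ∀ i, A i) (x : J →₀ A i) :
    prodPd_up i J (r i • x) = r • prodPd_up i J x := by
  ext1 j
  change Pi.single i (r i * x j) = r * Pi.single i (x j)
  funext l
  by_cases hl : l = i
  · subst hl
    simp
  · simp [hl]

private theorem prodPd_up_smul' (i : ι) {J : Type} (a : A i) (x : J →₀ A i) :
    prodPd_up i J (a • x) = (Pi.single i a : ∀ i, A i) • prodPd_up i J x := by
  rw [← prodPd_up_smul, Pi.single_eq_same]

private theorem prodPd_pr_up (i : ι) {J : Type} (x : J →₀ A i) :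
    prodPd_pr i J (prodPd_up i J x) = x := by
  ext j
  exact Pi.single_eq_same i (x j)

private theorem prodPd_pr_up_ne {i i' : ι} (h : i' ≠ i) {J : Type} (x : J →₀ A i) :
    prodPd_pr i' J (prodPd_up i J x) = 0 := by
  ext j
  exact Pi.single_eq_of_ne h (x j)

private theorem prodPd_eq_zero {J : Type} (w : J →₀ (∀ i, A i))
    (h : ∀ i, prodPd_pr i J w = 0) : w = 0 := by
  ext1 j
  funext i
  exact DFunLike.congr_fun (h i) j

private theorem prodPd_sum {J : Type} (w : J →₀ (∀ i, A i)) :
    ∑ i, prodPd_up i J (prodPd_pr i J w) = w := by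
  ext1 j
  rw [Finsupp.finsetSum_apply]
  exact Finset.univ_sum_single (w j)

/-- The component of a linear map. -/
private noncomputable def prodPd_comp {J J' : Type}
    (g : (J →₀ (∀ i, A i)) →ₗ[∀ i, A i] (J' →₀ (∀ i, A i))) (i : ι) :
    (J →₀ A i) →ₗ[A i] (J' →₀ A i) :=
  Finsupp.linearCombination (A i) fun j => prodPd_pr i J' (g (Finsupp.single j 1))

private theorem prodPd_comp_pr {J J' : Type}
    (g : (J →₀ (∀ i, A i)) →ₗ[∀ i, A i] (J' →₀ (∀ i, A i))) (i : ι) (w : J →₀ (∀ i, A i)) :
    prodPd_comp g i (prodPd_pr i J w) = prodPd_pr i J' (g w) := by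
  induction w using Finsupp.induction_linear with
  | zero => simp
  | add u v hu hv => rw [map_add, map_add, map_add, map_add, hu, hv]
  | single j r =>
    have h1 : prodPd_pr i J (Finsupp.single j r) = Finsupp.single j (r i) :=
      Finsupp.mapRange_single (hf := map_zero _)
    have h2 : (Finsupp.single j r : J →₀ (∀ i, A i)) = r • Finsupp.single j 1 := by
      rw [Finsupp.smul_single, smul_eq_mul, mul_one]
    rw [h1, h2, map_smul, prodPd_pr_smul]
    exact Finsupp.linearCombination_single (A i) (r i) j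

private theorem prodPd_up_ker {J J' : Type}
    (g : (J →₀ (∀ i, A i)) →ₗ[∀ i, A i] (J' →₀ (∀ i, A i))) (i : ι) (x : J →₀ A i)
    (hx : prodPd_comp g i x = 0) : g (prodPd_up i J x) = 0 := by
  apply prodPd_eq_zero
  intro i'
  rw [← prodPd_comp_pr]
  by_cases h : i' = i
  · subst h
    rw [prodPd_pr_up, hx]
  · rw [prodPd_pr_up_ne h, map_zero]

private theorem prodPd_range {J J' J'' : Type}
    (e : (J' →₀ (∀ i, A i)) →ₗ[∀ i, A i] (J'' →₀ (∀ i, A i)))
    (d : (J →₀ (∀ i, A i)) →ₗ[∀ i, A i] (J' →₀ (∀ i, A i)))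
    (h : LinearMap.range d = LinearMap.ker e) (i : ι) :
    LinearMap.range (prodPd_comp d i) = LinearMap.ker (prodPd_comp e i) := by
  ext x
  rw [LinearMap.mem_range, LinearMap.mem_ker]
  constructor
  · rintro ⟨y, rfl⟩
    have h1 : d (prodPd_up i J y) ∈ LinearMap.ker e := h ▸ LinearMap.mem_range_self d _
    rw [LinearMap.mem_ker] at h1
    have h2 : prodPd_comp d i y = prodPd_pr i J' (d (prodPd_up i J y)) := by
      rw [← prodPd_comp_pr, prodPd_pr_up]
    rw [h2, prodPd_comp_pr, h1, map_zero]
  · intro hx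
    have h1 : prodPd_up i J' x ∈ LinearMap.range d := by
      rw [h, LinearMap.mem_ker]
      exact prodPd_up_ker e i x hx
    obtain ⟨y, hy⟩ := h1
    exact ⟨prodPd_pr i J y, by rw [prodPd_comp_pr, hy, prodPd_pr_up]⟩

private theorem prodPd_proj {J J' : Type}
    (d : (J →₀ (∀ i, A i)) →ₗ[∀ i, A i] (J' →₀ (∀ i, A i)))
    (h : ∀ i, Module.Projective (A i) (LinearMap.ker (prodPd_comp d i))) :
    Module.Projective (∀ i, A i) (LinearMap.ker d) := by
  choose s hs using fun i => (h i).out
  let c : ∀ i, LinearMap.ker d → LinearMap.ker (prodPd_comp d i) := fun i x =>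
    ⟨prodPd_pr i J x, by
      rw [LinearMap.mem_ker, prodPd_comp_pr]
      have h1 : d (x : J →₀ (∀ i, A i)) = 0 := x.2
      rw [h1, map_zero]⟩
  let u : ∀ i, LinearMap.ker (prodPd_comp d i) → LinearMap.ker d := fun i x =>
    ⟨prodPd_up i J x, prodPd_up_ker d i x x.2⟩
  have hu : ∀ i (x : LinearMap.ker (prodPd_comp d i) →₀ A i),
      Finsupp.linearCombination (∀ i, A i) (u i) (prodPd_up i _ x) =
        u i (Finsupp.linearCombination (A i) id x) := by
    intro i x
    induction x using Finsupp.induction_linear with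
    | zero =>
      rw [map_zero, map_zero, map_zero]
      exact Subtype.ext (map_zero (prodPd_up i J)).symm
    | add f g hf hg =>
      rw [map_add, map_add, map_add, hf, hg]
      exact Subtype.ext (map_add (prodPd_up i J) _ _).symm
    | single l a =>
      have h1 : prodPd_up i (LinearMap.ker (prodPd_comp d i)) (Finsupp.single l a) =
          Finsupp.single l (Pi.single i a) := Finsupp.mapRange_single (hf := map_zero _)
      rw [h1, Finsupp.linearCombination_single, Finsupp.linearCombination_single]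
      exact Subtype.ext (prodPd_up_smul' i a (l : J →₀ A i)).symm
  let S : ι → LinearMap.ker d →ₗ[∀ i, A i] (LinearMap.ker d →₀ (∀ i, A i)) := fun i =>
    { toFun := fun x => Finsupp.mapDomain (u i) (prodPd_up i _ (s i (c i x)))
      map_add' := fun x y => by
        have h1 : c i (x + y) = c i x + c i y := Subtype.ext (map_add (prodPd_pr i J) _ _)
        rw [h1, map_add, map_add, Finsupp.mapDomain_add]
      map_smul' := fun r x => by
        have h1 : c i (r • x) = r i • c i x := Subtype.ext (prodPd_pr_smul i r _)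
        rw [h1, map_smul, prodPd_up_smul, Finsupp.mapDomain_smul]
        rfl }
  refine ⟨∑ i, S i, fun x => ?_⟩
  have h1 : ∀ i, Finsupp.linearCombination (∀ i, A i) id (S i x) = u i (c i x) := by
    intro i
    change Finsupp.linearCombination (∀ i, A i) id
      (Finsupp.mapDomain (u i) (prodPd_up i _ (s i (c i x)))) = _
    rw [Finsupp.linearCombination_mapDomain]
    exact (hu i _).trans (congrArg (u i) (hs i (c i x)))
  simp only [LinearMap.sum_apply, map_sum, h1]
  refine Subtype.ext ?_
  rw [AddSubmonoidClass.coe_finsetSum]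
  exact prodPd_sum (x : J →₀ (∀ i, A i))

private theorem prodPd_pdK (k : ℕ) : ∀ {J J' : Type}
    (d : (J →₀ (∀ i, A i)) →ₗ[∀ i, A i] (J' →₀ (∀ i, A i))),
    (∀ i, PdK (A i) k (prodPd_comp d i)) → PdK (∀ i, A i) k d := by
  induction k with
  | zero =>
    intro J J' d h
    exact prodPd_proj d h
  | succ k ih =>
    intro J J' d h J'' d' hd'
    exact ih d' fun i => h i J'' (prodPd_comp d' i) (prodPd_range d d' hd' i)

theorem pdk_prod {k : ℕ} (h : ∀ i, PDk (A i) k) : PDk (∀ i, A i) k := fun a b e J d hd =>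
  prodPd_pdK k d fun i => h i a b (prodPd_comp e i) J (prodPd_comp d i) (prodPd_range e d hd i)

end Prod

end Pool.Agent.WaldP
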