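import Pool.Agent.Lib.MP_8f66f0_al_WaldP.ProdDefs

/-! # WaldP: matrices over `L` are projective over a finite product of rings -/

set_option autoImplicit false
set_option linter.unusedSectionVars false

namespace Pool.Agent.WaldP

open Pool.Agent.Wald Finsupp Matrix

attribute [local instance] prodMod prodTower

section Prod
variable {ι : Type} [Fintype ι] [DecidableEq ι] {A : ι → Type} [∀ i, Ring (A i)]
  {L : Type} [Ring L] [∀ i, Module (A i) L] [∀ i, IsScalarTower (A i) L L]

/-- Elements over one factor, seen over the product. -/
private noncomputable def prodProj_up (i : ι) : (L →₀ A i) →+ (L →₀ (∀ i, A i)) :=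
  Finsupp.mapRange.addMonoidHom (AddMonoidHom.single A i)

omit [Fintype ι] [∀ i, IsScalarTower (A i) L L] [∀ i, Module (A i) L] in
private theorem prodProj_up_single (i : ι) (l : L) (a : A i) :
    prodProj_up i (Finsupp.single l a) = Finsupp.single l (Pi.single i a) :=
  Finsupp.mapRange_single (hf := map_zero _)

omit [Fintype ι] [∀ i, IsScalarTower (A i) L L] [∀ i, Module (A i) L] in
private theorem prodProj_up_smul (i : ι) (r : ∀ i, A i) (x : L →₀ A i) :
    prodProj_up i (r i • x) = r • prodProj_up i x := by
  induction x using Finsupp.induction_linear with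
  | zero => simp
  | add f g hf hg => rw [smul_add, map_add, map_add, smul_add, hf, hg]
  | single l a =>
    rw [Finsupp.smul_single, prodProj_up_single, prodProj_up_single, Finsupp.smul_single]
    congr 1
    funext j
    by_cases hj : j = i
    · subst hj
      simp
    · simp [hj]

omit [Fintype ι] [∀ i, IsScalarTower (A i) L L] in
private theorem prodProj_lc (i j : ι) (x : L →₀ A i) :
    Finsupp.linearCombination (∀ i, A i) (Matrix.single i j : L → Matrix ι ι L)
      (prodProj_up i x) = Matrix.single i j (Finsupp.linearCombination (A i) id x) := by
  induction x using Finsupp.induction_linear with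
  | zero => simp
  | add f g hf hg => rw [map_add, map_add, map_add, Matrix.single_add, hf, hg]
  | single l a =>
    rw [prodProj_up_single, Finsupp.linearCombination_single, Finsupp.linearCombination_single]
    funext i' j'
    change (Pi.single i a : ∀ i, A i) i' • (Matrix.single i j l) i' j' =
      Matrix.single i j (a • id l) i' j'
    by_cases hi : i' = i
    · subst hi
      rw [Pi.single_eq_same]
      by_cases hj : j' = j
      · subst hj
        simp
      · simp [Ne.symm hj]
    · rw [Pi.single_eq_of_ne hi, zero_smul]
      simp [Ne.symm hi]

theorem proj_prod (h : ∀ i, Module.Projective (A i) L) :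
    Module.Projective (∀ i, A i) (Matrix ι ι L) := by
  choose s hs using fun i => (h i).out
  let S : ι → ι → Matrix ι ι L →ₗ[∀ i, A i] (Matrix ι ι L →₀ (∀ i, A i)) := fun i j =>
    { toFun := fun M => Finsupp.mapDomain (Matrix.single i j) (prodProj_up i (s i (M i j)))
      map_add' := fun M N => by
        rw [Matrix.add_apply, map_add, map_add, Finsupp.mapDomain_add]
      map_smul' := fun r M => by
        have h1 : (r • M) i j = r i • M i j := rfl
        rw [h1, map_smul, prodProj_up_smul, Finsupp.mapDomain_smul]
        rfl }
  refine ⟨∑ i, ∑ j, S i j, fun M => ?_⟩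
  rw [LinearMap.sum_apply, map_sum]
  have h1 : ∀ i j, Finsupp.linearCombination (∀ i, A i) id (S i j M) =
      Matrix.single i j (M i j) := by
    intro i j
    change Finsupp.linearCombination (∀ i, A i) id
      (Finsupp.mapDomain (Matrix.single i j) (prodProj_up i (s i (M i j)))) = _
    rw [Finsupp.linearCombination_mapDomain]
    exact (prodProj_lc i j _).trans (congrArg (Matrix.single i j) (hs i (M i j)))
  simp only [LinearMap.sum_apply, map_sum, h1]
  exact (Matrix.matrix_eq_sum_single M).symm

end Prod

end Pool.Agent.WaldP
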