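import Pool.Agent.Lib.MP_8f66f0_al_WaldP.ProdFlat
import Pool.Agent.Lib.MP_8f66f0_al_WaldP.ProdProj
import Pool.Agent.Lib.MP_8f66f0_al_WaldP.ProdC1
import Pool.Agent.Lib.MP_8f66f0_al_WaldP.ProdPd
import Pool.Agent.Lib.MP_8f66f0_al_WaldP.GenMat

/-! # Theorem N for a finite family of rings -/

set_option autoImplicit false

namespace Pool.Agent.WaldP

open Pool.Agent.Wald Finsupp Matrix

attribute [local instance] prodMod prodTower

section FamVan
variable {ι : Type} [Fintype ι] [DecidableEq ι] {A : ι → Type} [∀ i, Ring (A i)]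
  {L : Type} [Ring L] [∀ i, Module (A i) L] [∀ i, IsScalarTower (A i) L L]

/-- A matrix with typed rows and columns as a matrix over the matrix ring. -/
def spread {n : ℕ} (ty : Fin n → ι) (ν : Matrix (Fin n) (Fin n) L) :
    Matrix (Fin n) (Fin n) (Matrix ι ι L) :=
  fun a b => Matrix.of fun t u => if ty a = t ∧ ty b = u then ν a b else 0

theorem sameK_spread {n : ℕ} (ty : Fin n → ι) (ν : Matrix (Fin n) (Fin n) L) :
    SameK ν (Matrix.comp (Fin n) (Fin n) ι ι L (spread ty ν)) := by
  let Q : Matrix (Fin n × ι) (Fin n) L := Matrix.of fun p b => if b = p.1 ∧ ty p.1 = p.2 then 1 else 0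
  let Q' : Matrix (Fin n) (Fin n × ι) L := Matrix.of fun b p => if b = p.1 ∧ ty p.1 = p.2 then 1 else 0
  have h1 : Q' * Q = 1 := by
    ext a b
    rw [Matrix.mul_apply, Fintype.sum_prod_type, Matrix.one_apply]
    by_cases hab : a = b
    · subst hab
      rw [if_pos rfl, Finset.sum_eq_single a, Finset.sum_eq_single (ty a)]
      · simp [Q, Q']
      · intro t _ ht
        simp [Q, Q', Ne.symm ht]
      · simp
      · intro c _ hc
        refine Finset.sum_eq_zero fun t _ => ?_
        simp [Q, Q', Ne.symm hc]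
      · simp
    · rw [if_neg hab]
      refine Finset.sum_eq_zero fun c _ => Finset.sum_eq_zero fun t _ => ?_
      by_cases hc : a = c
      · subst hc
        simp [Q, Q', Ne.symm hab]
      · simp [Q, Q', hc]
  have h2 : Q * (ν * Q') = Matrix.comp (Fin n) (Fin n) ι ι L (spread ty ν) := by
    ext ⟨a, t⟩ ⟨b, u⟩
    rw [Matrix.mul_apply, Finset.sum_eq_single a]
    · rw [Matrix.mul_apply, Finset.sum_eq_single b]
      · by_cases h3 : ty a = t
        · by_cases h4 : ty b = u
          · simp [Q, Q', spread, h3, h4]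
          · simp [Q, Q', spread, h4]
        · simp [Q, Q', spread, h3]
      · intro c _ hc
        simp [Q', hc]
      · simp
    · intro c _ hc
      simp [Q, hc]
    · simp
  have h3 := sameK_swap (ν * Q') Q
  rw [h2, Matrix.mul_assoc, h1, Matrix.mul_one] at h3
  exact h3

/-- Theorem N for a finite family of rings. The rows of `ν` have types `ty a`, and vectors
`x` have entries `x a` in the product of the rings, of which only the component `ty a` matters. -/
theorem fam_vanish (hF : ∀ i, RFlat (A i) L) (hPr : ∀ i, Module.Projective (A i) L)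
    (hC : ∀ i, C1 (A i)) (hP : ∀ i, ∃ k, PDk (A i) k) {n : ℕ} (ty : Fin n → ι)
    (ν : Matrix (Fin n) (Fin n) L) (hu : IsUnit (1 - ν)) (m : ℕ) (B : ℕ → ℕ)
    (h : ∀ i, Matrix (Fin n) (Fin (B i)) (∀ j, A j))
    (h0 : ∀ x : Fin n → ∀ j, A j, vecMul x (h 0) = 0 → x = 0) (hm : h m = 0)
    (hh : ∀ i (x : Fin n → ∀ j, A j), vecMul x (h (i + 1)) = 0 → ∀ c t u,
      ∑ b, (if ty b = u then ∑ a, (if ty a = t then x a t • ν a b else 0) else 0) *
        io (A u) L (h i b c u) = 0)
    {K : Type} [CommGroup K] (κ : K1Fun L K) : κ.f (1 - ν) = 1 := by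
  have hF' := rflat_prod hF
  have hPr' := proj_prod hPr
  have hC' := c1_prod hC
  obtain ⟨k, hk⟩ : ∃ k, PDk (∀ i, A i) k := by
    choose k hk using hP
    exact ⟨Finset.univ.sup k, pdk_prod fun i => pdk_mono (Finset.le_sup (Finset.mem_univ i)) (hk i)⟩
  obtain ⟨h1, h2⟩ := sameK_spread ty ν hu
  have h3 : Matrix.comp (Fin n) (Fin n) ι ι L (1 - spread ty ν) =
      1 - Matrix.comp (Fin n) (Fin n) ι ι L (spread ty ν) := by
    have e1 := map_sub (Matrix.compRingEquiv (Fin n) ι L) 1 (spread ty ν)
    rw [map_one] at e1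
    exact e1
  have hu' : IsUnit (1 - spread ty ν) := by
    have e1 : IsUnit ((Matrix.compRingEquiv (Fin n) ι L) (1 - spread ty ν)) := by
      change IsUnit (Matrix.comp (Fin n) (Fin n) ι ι L (1 - spread ty ν))
      rw [h3]
      exact h1
    exact (MulEquiv.isUnit_map (Matrix.compRingEquiv (Fin n) ι L)).1 e1
  have key := nilVanish_mat hF' hC' hk (spread ty ν) m B h h0 hm ?_ hu' (k1Mat κ ι)
  · change κ.f (Matrix.comp (Fin n) (Fin n) ι ι L (1 - spread ty ν)) = 1 at key
    rw [h3, h2 K κ] at key
    exact key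
  · intro i x hx
    have e0 := hh i x hx
    funext c
    ext t u
    have e1 : ∀ b, (vecMul (fun a => io (∀ i, A i) (Matrix ι ι L) (x a)) (spread ty ν) b) t u =
        if ty b = u then ∑ a, (if ty a = t then x a t • ν a b else 0) else 0 := by
      intro b
      change (∑ a, io (∀ i, A i) (Matrix ι ι L) (x a) * spread ty ν a b) t u = _
      rw [Matrix.sum_apply]
      by_cases hb : ty b = u
      · rw [if_pos hb]
        refine Finset.sum_congr rfl fun a _ => ?_
        rw [trLem_io_mul]
        change x a t • (if ty a = t ∧ ty b = u then ν a b else 0) = _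
        by_cases ha : ty a = t
        · rw [if_pos ⟨ha, hb⟩, if_pos ha]
        · rw [if_neg ha, if_neg (fun h => ha h.1), smul_zero]
      · rw [if_neg hb]
        refine Finset.sum_eq_zero fun a _ => ?_
        rw [trLem_io_mul]
        change x a t • (if ty a = t ∧ ty b = u then ν a b else 0) = 0
        rw [if_neg (fun h => hb h.2), smul_zero]
    have e2 : ∀ (M : Matrix ι ι L) (r : ∀ i, A i), (M * io (∀ i, A i) (Matrix ι ι L) r) t u =
        M t u * io (A u) L (r u) := by
      intro M r
      rw [Matrix.mul_apply, Finset.sum_eq_single u]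
      · congr 1
        change r u • (1 : Matrix ι ι L) u u = r u • (1 : L)
        rw [Matrix.one_apply_eq]
      · intro v _ hv
        change M t v * (r v • (1 : Matrix ι ι L) v u) = 0
        rw [Matrix.one_apply_ne hv, smul_zero, mul_zero]
      · intro h
        exact absurd (Finset.mem_univ _) h
    change (∑ b, vecMul (fun a => io (∀ i, A i) (Matrix ι ι L) (x a)) (spread ty ν) b *
      io (∀ i, A i) (Matrix ι ι L) (h i b c)) t u = 0
    rw [Matrix.sum_apply, ← e0 c t u]
    exact Finset.sum_congr rfl fun b _ => by rw [e2, e1]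

end FamVan

end Pool.Agent.WaldP
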