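import Pool.Agent.Lib.MP_8f66f0_al_Wald.GrDefs

/-! # Path systems and their subdivision -/

set_option autoImplicit false

namespace Pool.Agent.WaldP

open Pool.Agent.Wald

section PSys
variable {G : Type} [Group G]

/-- Products of `i` elements of the sets `X` from type `s` to type `t`. -/
def PY {T : Type} (D : T → Subgroup G) (X : T → T → Set G) : ℕ → T → T → Set G
  | 0, s, t => {g | s = t ∧ g ∈ D s}
  | i + 1, s, t => {g | ∃ r, ∃ u ∈ X s r, ∃ h ∈ PY D X i r t, g = u * h}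

/-- A path system: types with stabilizers and connecting sets, such that the first step of a
product is determined by the product and the number of the remaining steps. -/
structure PSys (G : Type) [Group G] (T : Type) where
  D : T → Subgroup G
  X : T → T → Set G
  left : ∀ s t, ∀ d ∈ D s, ∀ u ∈ X s t, d * u ∈ X s t
  right : ∀ s t, ∀ d ∈ D t, ∀ u ∈ X s t, u * d ∈ X s t
  uniq : ∀ (i : ℕ) (s t s' t' l : T), ∀ u ∈ X s t, ∀ u' ∈ X s' t', ∀ h ∈ PY D X i t l,
    ∀ h' ∈ PY D X i t' l, u * h = u' * h' → t = t' ∧ u⁻¹ * u' ∈ D t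

/-- The conjugate `g K g⁻¹`. -/
def cj (g : G) (K : Subgroup G) : Subgroup G := K.map (MulAut.conj g).toMonoidHom

theorem mem_cj {g : G} {K : Subgroup G} {x : G} : x ∈ cj g K ↔ g⁻¹ * x * g ∈ K := by
  constructor
  · rintro ⟨y, hy, rfl⟩
    have h1 : g⁻¹ * (MulAut.conj g) y * g = y := by
      rw [MulAut.conj_apply]
      group
    change g⁻¹ * (MulAut.conj g) y * g ∈ K
    rw [h1]
    exact hy
  · intro h
    refine ⟨g⁻¹ * x * g, h, ?_⟩
    change MulAut.conj g (g⁻¹ * x * g) = x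
    rw [MulAut.conj_apply]
    group

/-- The double coset `H g K`. -/
def dc (H K : Subgroup G) (g : G) : Set G := {z | ∃ d ∈ H, ∃ c ∈ K, z = d * g * c}

theorem self_mem_dc (H K : Subgroup G) (g : G) : g ∈ dc H K g :=
  ⟨1, H.one_mem, 1, K.one_mem, by group⟩

theorem dc_eq {H K : Subgroup G} {g g' : G} (h : g' ∈ dc H K g) : dc H K g' = dc H K g := by
  obtain ⟨d, hd, c, hc, rfl⟩ := h
  ext z
  constructor
  · rintro ⟨d', hd', c', hc', rfl⟩
    exact ⟨d' * d, H.mul_mem hd' hd, c * c', K.mul_mem hc hc', by group⟩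
  · rintro ⟨d', hd', c', hc', rfl⟩
    exact ⟨d' * d⁻¹, H.mul_mem hd' (H.inv_mem hd), c⁻¹ * c', K.mul_mem (K.inv_mem hc) hc',
      by group⟩

open Classical in
/-- A representative of the double coset `H g K`, depending only on the double coset. -/
noncomputable def dcRep (H K : Subgroup G) (g : G) : G :=
  if h : ∃ x : G, dc H K x = dc H K g then Classical.choose h else 1

theorem dc_dcRep (H K : Subgroup G) (g : G) : dc H K (dcRep H K g) = dc H K g := by
  have h : ∃ x : G, dc H K x = dc H K g := ⟨g, rfl⟩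
  rw [dcRep, dif_pos h]
  exact Classical.choose_spec h

theorem dcRep_congr {H K : Subgroup G} {g g' : G} (h : g' ∈ dc H K g) :
    dcRep H K g' = dcRep H K g := by
  rw [dcRep, dcRep, dc_eq h]

theorem mem_dcRep (H K : Subgroup G) (g : G) :
    ∃ d ∈ H, ∃ c ∈ K, g = d * dcRep H K g * c := by
  have h := self_mem_dc H K g
  rw [← dc_dcRep] at h
  exact h

theorem dcRep_mem (H K : Subgroup G) (g : G) : dcRep H K g ∈ dc H K g := by
  have h := self_mem_dc H K (dcRep H K g)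
  rw [dc_dcRep] at h
  exact h

theorem dcRep_idem (H K : Subgroup G) (g : G) : dcRep H K (dcRep H K g) = dcRep H K g :=
  dcRep_congr (dcRep_mem H K g)

variable {T : Type}

theorem PY.left {D : T → Subgroup G} {X : T → T → Set G}
    (hl : ∀ s t, ∀ d ∈ D s, ∀ u ∈ X s t, d * u ∈ X s t) (i : ℕ) (s t : T) (d : G) (hd : d ∈ D s)
    (g : G) (hg : g ∈ PY D X i s t) : d * g ∈ PY D X i s t := by
  cases i with
  | zero => exact ⟨hg.1, (D s).mul_mem hd hg.2⟩
  | succ i =>
    obtain ⟨r, u, hu, h, hh, rfl⟩ := hg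
    exact ⟨r, d * u, hl s r d hd u hu, h, hh, by group⟩

theorem PY.right {D : T → Subgroup G} {X : T → T → Set G} (i : ℕ) (s t : T) (d : G) (hd : d ∈ D t)
    (g : G) (hg : g ∈ PY D X i s t) : g * d ∈ PY D X i s t := by
  induction i generalizing s g with
  | zero =>
    obtain ⟨rfl, h⟩ := hg
    exact ⟨rfl, (D s).mul_mem h hd⟩
  | succ i ih =>
    obtain ⟨r, u, hu, h, hh, rfl⟩ := hg
    exact ⟨r, u, hu, h * d, ih r h hh, by group⟩

/-- Stabilizers of the subdivided system. -/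
noncomputable def stepD (S : PSys G T) (p : T × T × G) : Subgroup G :=
  S.D p.1 ⊓ cj p.2.2 (S.D p.2.1)

/-- Connecting sets of the subdivided system. -/
def stepX (S : PSys G T) (p q : T × T × G) : Set G :=
  {x | q.1 = p.2.1 ∧ p.2.2 ∈ S.X p.1 p.2.1 ∧ q.2.2 ∈ S.X q.1 q.2.1 ∧
    dcRep (S.D q.1) (S.D q.2.1) q.2.2 = q.2.2 ∧ ∃ d ∈ S.D p.2.1, x = p.2.2 * d}

/-- A product in the subdivided system, followed by the last double coset representative. -/
theorem step_PY (S : PSys G T) (i : ℕ) (p q : T × T × G) (g : G)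
    (hg : g ∈ PY (stepD S) (stepX S) i p q) :
    ∃ h ∈ PY S.D S.X i p.2.1 q.2.1, g * q.2.2 = p.2.2 * h := by
  induction i generalizing p g with
  | zero =>
    obtain ⟨rfl, h⟩ := hg
    refine ⟨p.2.2⁻¹ * g * p.2.2, ⟨rfl, mem_cj.1 h.2⟩, by group⟩
  | succ i ih =>
    obtain ⟨r, u, ⟨h1, h2, h3, h4, d, hd, rfl⟩, h, hh, rfl⟩ := hg
    obtain ⟨h', hh', e⟩ := ih r h hh
    refine ⟨d * r.2.2 * h', ⟨r.2.1, d * r.2.2, ?_, h', hh', by group⟩, ?_⟩
    · have h5 : d ∈ S.D r.1 := by rw [h1]; exact hd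
      have h6 := S.left _ _ d h5 _ h3
      rw [h1] at h6
      exact h6
    · rw [mul_assoc (p.2.2 * d) h, e]
      group

/-- The subdivided system. -/
noncomputable def PSys.step (S : PSys G T) : PSys G (T × T × G) where
  D := stepD S
  X := stepX S
  left := by
    rintro p q e he u ⟨h1, h2, h3, h4, d, hd, rfl⟩
    exact ⟨h1, h2, h3, h4, p.2.2⁻¹ * e * p.2.2 * d, (S.D p.2.1).mul_mem (mem_cj.1 he.2) hd,
      by group⟩
  right := by
    rintro p q e he u ⟨h1, h2, h3, h4, d, hd, rfl⟩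
    have h5 : e ∈ S.D p.2.1 := by rw [← h1]; exact he.1
    exact ⟨h1, h2, h3, h4, d * e, (S.D p.2.1).mul_mem hd h5, by group⟩
  uniq := by
    rintro i ⟨s, t, g⟩ ⟨t1, r, g1⟩ ⟨s', t', g'⟩ ⟨t1', r', g1'⟩ l u ⟨h1, h2, h3, h4, d, hd, hu⟩
      u' ⟨h1', h2', h3', h4', d', hd', hu'⟩ h hh h' hh' e
    dsimp only at h1 h2 h3 h4 hd hu h1' h2' h3' h4' hd' hu'
    subst h1 h1' hu hu'
    obtain ⟨k, hk, ek⟩ := step_PY S i _ _ _ hh
    obtain ⟨k', hk', ek'⟩ := step_PY S i _ _ _ hh'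
    dsimp only at hk ek hk' ek'
    have hX : g * d ∈ S.X s t1 := S.right _ _ d hd _ h2
    have hX' : g' * d' ∈ S.X s' t1' := S.right _ _ d' hd' _ h2'
    have e1 : g * d * (g1 * k) = g' * d' * (g1' * k') := by
      rw [← ek, ← ek', ← mul_assoc, ← mul_assoc, e]
    obtain ⟨e2, e3⟩ := S.uniq (i + 1) s t1 s' t1' l.2.1 _ hX _ hX' (g1 * k) ⟨r, g1, h3, k, hk, rfl⟩
      (g1' * k') ⟨r', g1', h3', k', hk', rfl⟩ e1
    subst e2
    have e4 : g1 * k = (g * d)⁻¹ * (g' * d') * g1' * k' := by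
      rw [mul_assoc _ g1' k', mul_assoc (g * d)⁻¹, ← e1, inv_mul_cancel_left]
    obtain ⟨e5, e6⟩ := S.uniq i t1 r t1 r' l.2.1 _ h3 _ (S.left _ _ _ e3 _ h3') k hk k' hk' e4
    subst e5
    have e7 : g1' ∈ dc (S.D t1) (S.D r) g1 :=
      ⟨((g * d)⁻¹ * (g' * d'))⁻¹, (S.D t1).inv_mem e3, _, e6, by group⟩
    have e8 : g1' = g1 := by
      have := dcRep_congr e7
      rw [h4, h4'] at this
      exact this
    subst e8
    refine ⟨rfl, e3, mem_cj.2 ?_⟩
    have e9 : g1'⁻¹ * ((g * d)⁻¹ * (g' * d')) * g1' = g1'⁻¹ * ((g * d)⁻¹ * (g' * d') * g1') := by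
      group
    rw [e9]
    exact e6

/-- The path system of path data in which different types have different paths. -/
def PSys.ofPath {H : Subgroup G} (P : PathData G H T)
    (hdisj : ∀ i j, ∀ g ∈ P.Y i, g ∈ P.Y j → i ≠ j → P.len g = 0) : PSys G T where
  D := fun _ => H
  X := P.X
  left := fun s t d hd u hu => (P.mulX s t d hd u hu).2
  right := fun s t d hd u hu => (P.mulX s t d hd u hu).1
  uniq := by
    have hY : ∀ (i : ℕ) (s t : T), ∀ g ∈ PY (fun _ => H) P.X i s t, g ∈ P.Y s ∧ P.len g = i := by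
      intro i
      induction i with
      | zero =>
        rintro s t g ⟨rfl, hg⟩
        obtain ⟨h1, h2⟩ := P.mulY s g hg 1 (P.one_mem s)
        rw [mul_one, P.len_one] at h2
        rw [mul_one] at h1
        exact ⟨h1, h2⟩
      | succ i ih =>
        rintro s t g ⟨r, u, hu, h, hh, rfl⟩
        obtain ⟨h1, h2⟩ := ih r t h hh
        obtain ⟨h3, h4⟩ := P.add s r u hu h h1
        exact ⟨h3, by rw [h4, h2]⟩
    intro i s t s' t' l u hu u' hu' h hh h' hh' e
    have h1 := P.uniq s t s' t' u hu h (hY i t l h hh).1 u' hu' h' (hY i t' l h' hh').1 e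
    refine ⟨?_, h1⟩
    by_contra hne
    have e1 : h = u⁻¹ * u' * h' := by rw [mul_assoc, ← e, inv_mul_cancel_left]
    have h2 := P.mulY t' _ h1 h' (hY i t' l h' hh').1
    rw [← e1] at h2
    have h3 := hdisj t t' h (hY i t l h hh).1 h2.1 hne
    rw [(hY i t l h hh).2] at h3
    subst h3
    exact hne (hh.1.trans hh'.1.symm)

end PSys

end Pool.Agent.WaldP
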