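import Pool.Agent.Lib.MP_8f66f0_al_Wald.NilVanPd

/-! # Finite products of rings acting on a matrix ring: definitions -/

set_option autoImplicit false

namespace Pool.Agent.WaldP

open Pool.Agent.Wald Finsupp Matrix

section Prod
variable {ι : Type} [Fintype ι] [DecidableEq ι] {A : ι → Type} [∀ i, Ring (A i)]
  {L : Type} [Ring L] [∀ i, Module (A i) L] [∀ i, IsScalarTower (A i) L L]

/-- `∏ A i` acts on the rows of `ι × ι` matrices. -/
@[reducible]
def prodMod : Module (∀ i, A i) (Matrix ι ι L) where
  smul r M := fun i j => r i • M i j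
  one_smul M := by
    funext i j
    exact one_smul (A i) (M i j)
  mul_smul r r' M := by
    funext i j
    exact mul_smul (r i) (r' i) (M i j)
  smul_zero r := by
    funext i j
    exact smul_zero (r i)
  smul_add r M M' := by
    funext i j
    exact smul_add (r i) (M i j) (M' i j)
  add_smul r r' M := by
    funext i j
    exact add_smul (r i) (r' i) (M i j)
  zero_smul M := by
    funext i j
    exact zero_smul (A i) (M i j)

omit [DecidableEq ι] in
theorem prodTower : letI := prodMod (A := A) (L := L) (ι := ι)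
    IsScalarTower (∀ i, A i) (Matrix ι ι L) (Matrix ι ι L) := by
  let := prodMod (A := A) (L := L) (ι := ι)
  refine ⟨fun r M N => ?_⟩
  funext i j
  change (∑ k, (r i • M i k) * N k j) = r i • ∑ k, M i k * N k j
  rw [Finset.smul_sum]
  exact Finset.sum_congr rfl fun k _ => smul_mul_assoc _ _ _

/-- The invariant of matrices of matrices. -/
noncomputable def k1Mat {K : Type} [CommGroup K] (κ : K1Fun L K) (ι : Type) [Fintype ι]
    [DecidableEq ι] : K1Fun (Matrix ι ι L) K where
  f {n} _ _ M := κ.f (Matrix.comp n n ι ι L M)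
  mul {n} _ _ A B hA hB := by
    have h1 : Matrix.comp n n ι ι L (A * B) = Matrix.comp n n ι ι L A * Matrix.comp n n ι ι L B :=
      map_mul (Matrix.compRingEquiv n ι L) A B
    rw [h1]
    exact κ.mul _ _ (hA.map (Matrix.compRingEquiv n ι L)) (hB.map (Matrix.compRingEquiv n ι L))
  reindex {n m} _ _ _ _ e A hA := by
    have h1 := κ.reindex (Equiv.prodCongr e (Equiv.refl ι)) (Matrix.comp n n ι ι L A)
      (hA.map (Matrix.compRingEquiv n ι L))
    rw [← h1]
    rfl
  tri {n m} _ _ _ _ A B D hA hD := by
    have h1 := κ.tri (Matrix.comp n n ι ι L A) (Matrix.comp n m ι ι L B)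
      (Matrix.comp m m ι ι L D) (hA.map (Matrix.compRingEquiv n ι L))
      (hD.map (Matrix.compRingEquiv m ι L))
    rw [← h1]
    have hu : IsUnit (fromBlocks (Matrix.comp n n ι ι L A) (Matrix.comp n m ι ι L B) 0
        (Matrix.comp m m ι ι L D)) := K1Fun.isUnit_tri _ (hA.map (Matrix.compRingEquiv n ι L))
      (hD.map (Matrix.compRingEquiv m ι L))
    rw [← κ.reindex (Equiv.sumProdDistrib n m ι).symm _ hu]
    congr 1
    ext ⟨a | a, i⟩ ⟨b | b, j⟩ <;> rfl

end Prod

end Pool.Agent.WaldP
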