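import Pool.Agent.Lib.MP_8f66f0_al_WaldP.ProdDefs

/-! # Flatness for finite products of rings -/

set_option autoImplicit false

namespace Pool.Agent.WaldP

open Pool.Agent.Wald Finsupp Matrix

attribute [local instance] prodMod prodTower

section ProdFlat
variable {ι : Type} [Fintype ι] [DecidableEq ι] {A : ι → Type} [∀ i, Ring (A i)]
  {L : Type} [Ring L] [∀ i, Module (A i) L] [∀ i, IsScalarTower (A i) L L] {J J' : Type}

/-- The component `t` of a vector. -/
private noncomputable def prodFlatPt (A : ι → Type) [∀ i, Ring (A i)] (t : ι) (J : Type) :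
    (J →₀ (∀ i, A i)) →+ (J →₀ A t) :=
  Finsupp.mapRange.addMonoidHom (Pi.evalAddMonoidHom A t)

omit [Fintype ι] [DecidableEq ι] in
private theorem prodFlatPt_apply (t : ι) (x : J →₀ (∀ i, A i)) (j : J) :
    prodFlatPt A t J x j = x j t := rfl

/-- The vector with the component `t` given and the other components zero. -/
private noncomputable def prodFlatIns (A : ι → Type) [∀ i, Ring (A i)] (t : ι) (J : Type) :
    (J →₀ A t) →+ (J →₀ (∀ i, A i)) :=
  Finsupp.mapRange.addMonoidHom (AddMonoidHom.single A t)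

omit [Fintype ι] in
private theorem prodFlatIns_apply (t : ι) (x : J →₀ A t) (j : J) :
    prodFlatIns A t J x j = Pi.single t (x j) := rfl

/-- The component `t` of a linear map. -/
private noncomputable def prodFlatComp (g : (J →₀ (∀ i, A i)) →ₗ[∀ i, A i] (J' →₀ (∀ i, A i)))
    (t : ι) : (J →₀ A t) →ₗ[A t] (J' →₀ A t) :=
  Finsupp.linearCombination (A t) fun j => prodFlatPt A t J' (g (single j 1))

omit [Fintype ι] [DecidableEq ι] in
private theorem prodFlatPt_smul (t : ι) (r : ∀ i, A i) (x : J →₀ (∀ i, A i)) :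
    prodFlatPt A t J (r • x) = r t • prodFlatPt A t J x := by
  ext j
  rw [prodFlatPt_apply, Finsupp.smul_apply, Finsupp.smul_apply, prodFlatPt_apply, smul_eq_mul,
    smul_eq_mul, Pi.mul_apply]

omit [Fintype ι] [DecidableEq ι] in
private theorem prodFlat_pt_g (g : (J →₀ (∀ i, A i)) →ₗ[∀ i, A i] (J' →₀ (∀ i, A i))) (t : ι)
    (x : J →₀ (∀ i, A i)) :
    prodFlatPt A t J' (g x) = prodFlatComp g t (prodFlatPt A t J x) := by
  induction x using Finsupp.induction_linear with
  | zero => rw [map_zero, map_zero, map_zero, map_zero]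
  | add x y hx hy => rw [map_add, map_add, map_add, map_add, hx, hy]
  | single j r =>
    have h1 : single j r = r • single j (1 : ∀ i, A i) := by
      rw [Finsupp.smul_single, smul_eq_mul, mul_one]
    have h2 : prodFlatPt A t J (single j r) = single j (r t) := by
      rw [prodFlatPt, Finsupp.mapRange.addMonoidHom_apply, Finsupp.mapRange_single]
      rfl
    rw [h2, prodFlatComp, Finsupp.linearCombination_single, h1, map_smul, prodFlatPt_smul]

omit [Fintype ι] in
private theorem prodFlat_ins_ker (g : (J →₀ (∀ i, A i)) →ₗ[∀ i, A i] (J' →₀ (∀ i, A i))) (t : ι)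
    (x : J →₀ A t) (hx : prodFlatComp g t x = 0) : g (prodFlatIns A t J x) = 0 := by
  ext j' u
  rw [← prodFlatPt_apply u, prodFlat_pt_g, Finsupp.zero_apply, Pi.zero_apply]
  by_cases h : u = t
  · subst h
    have h1 : prodFlatPt A u J (prodFlatIns A u J x) = x := by
      ext j
      rw [prodFlatPt_apply, prodFlatIns_apply, Pi.single_eq_same]
    rw [h1, hx, Finsupp.zero_apply]
  · have h1 : prodFlatPt A u J (prodFlatIns A t J x) = 0 := by
      ext j
      rw [prodFlatPt_apply, prodFlatIns_apply, Pi.single_eq_of_ne h, Finsupp.zero_apply]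
    rw [h1, map_zero, Finsupp.zero_apply]

/-- The entries. -/
private noncomputable def prodFlatEn (L : Type) [Ring L] (s t : ι) (J : Type) :
    (J →₀ Matrix ι ι L) →+ (J →₀ L) :=
  Finsupp.mapRange.addMonoidHom (Matrix.entryAddMonoidHom L s t)

omit [Fintype ι] [DecidableEq ι] in
private theorem prodFlatEn_apply (s t : ι) (y : J →₀ Matrix ι ι L) (j : J) :
    prodFlatEn L s t J y j = y j s t := rfl

private theorem prodFlat_io (r : ∀ i, A i) :
    io (∀ i, A i) (Matrix ι ι L) r = Matrix.diagonal fun i => r i • (1 : L) := by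
  rw [io, RingHom.smulOneHom_apply]
  ext i j
  change r i • (1 : Matrix ι ι L) i j = _
  rw [Matrix.diagonal_apply, Matrix.one_apply]
  split_ifs
  · rfl
  · exact smul_zero _

private theorem prodFlat_en_bc (g : (J →₀ (∀ i, A i)) →ₗ[∀ i, A i] (J' →₀ (∀ i, A i))) (s t : ι)
    (y : J →₀ Matrix ι ι L) : prodFlatEn L s t J' (bc (Matrix ι ι L) g y) =
      bc L (prodFlatComp g t) (prodFlatEn L s t J y) := by
  induction y using Finsupp.induction_linear with
  | zero => rw [map_zero, map_zero, map_zero, map_zero]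
  | add x y hx hy => rw [map_add, map_add, map_add, map_add, hx, hy]
  | single j M =>
    have h2 : prodFlatEn L s t J (single j M) = single j (M s t) := by
      rw [prodFlatEn, Finsupp.mapRange.addMonoidHom_apply, Finsupp.mapRange_single]
      rfl
    rw [h2, bc_single, bc_single, prodFlatComp, Finsupp.linearCombination_single, one_smul]
    ext j'
    rw [prodFlatEn_apply, Finsupp.smul_apply, Finsupp.smul_apply, emb_apply, emb_apply,
      smul_eq_mul, smul_eq_mul, prodFlat_io, Matrix.mul_diagonal, prodFlatPt_apply, io,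
      RingHom.smulOneHom_apply]

/-- A matrix with one entry. -/
private noncomputable def prodFlatEm (L : Type) [Ring L] (s t : ι) (J : Type) :
    (J →₀ L) →+ (J →₀ Matrix ι ι L) :=
  Finsupp.mapRange.addMonoidHom (Matrix.singleAddMonoidHom s t)

omit [Fintype ι] in
private theorem prodFlatEm_apply (s t : ι) (y : J →₀ L) (j : J) :
    prodFlatEm L s t J y j = Matrix.single s t (y j) := rfl

private theorem prodFlat_em_smul (s t : ι) (l : L) (x : J →₀ A t) :
    prodFlatEm L s t J (l • emb (A t) L J x) =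
      Matrix.single s t l • emb (∀ i, A i) (Matrix ι ι L) J (prodFlatIns A t J x) := by
  ext1 j
  rw [prodFlatEm_apply, Finsupp.smul_apply, Finsupp.smul_apply, emb_apply, emb_apply,
    smul_eq_mul, smul_eq_mul, prodFlat_io, prodFlatIns_apply, io, RingHom.smulOneHom_apply]
  ext u v
  rw [Matrix.mul_diagonal, Matrix.single_apply, Matrix.single_apply]
  by_cases h : s = u ∧ t = v
  · obtain ⟨rfl, rfl⟩ := h
    rw [if_pos ⟨rfl, rfl⟩, if_pos ⟨rfl, rfl⟩, Pi.single_eq_same]
  · rw [if_neg h, if_neg h, zero_mul]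

private theorem prodFlat_sum (y : J →₀ Matrix ι ι L) :
    y = ∑ s, ∑ t, prodFlatEm L s t J (prodFlatEn L s t J y) := by
  ext1 j
  rw [Finsupp.finsetSum_apply]
  conv_lhs => rw [Matrix.matrix_eq_sum_single (y j)]
  refine Finset.sum_congr rfl fun s _ => ?_
  rw [Finsupp.finsetSum_apply]
  rfl

theorem rflat_prod (h : ∀ i, RFlat (A i) L) : RFlat (∀ i, A i) (Matrix ι ι L) := by
  intro J J' g y hy
  rw [prodFlat_sum y]
  refine Submodule.sum_mem _ fun s _ => Submodule.sum_mem _ fun t _ => ?_
  have h1 : bc L (prodFlatComp g t) (prodFlatEn L s t J y) = 0 := by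
    rw [← prodFlat_en_bc, hy, map_zero]
  obtain ⟨k, l, x, hx, hxy⟩ := exists_rep (h t) _ _ h1
  rw [hxy, map_sum]
  refine Submodule.sum_mem _ fun a _ => ?_
  rw [prodFlat_em_smul]
  refine Submodule.smul_mem _ _ (Submodule.subset_span ⟨_, ?_, rfl⟩)
  exact prodFlat_ins_ker g t (x a) (hx a)

end ProdFlat

end Pool.Agent.WaldP
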