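import Pool.Agent.Lib.MP_8f66f0_al_WaldP.ProdDefs

/-! # Spec of the product modules -/

set_option autoImplicit false

namespace Pool.Agent.WaldP

open Pool.Agent.Wald Finsupp Matrix

attribute [local instance] prodMod prodTower

section Prod
variable {ι : Type} [Fintype ι] [DecidableEq ι] {A : ι → Type} [∀ i, Ring (A i)]
  {L : Type} [Ring L] [∀ i, Module (A i) L] [∀ i, IsScalarTower (A i) L L]

/-- TASK P1 (file ProdFlat.lean, theorem rflat_prod).
For `g : R^(J) -> R^(J')`, `R = ∏ A i`, let `comp g t : (A t)^(J) -> (A t)^(J')` send `single j 1` to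
the t-component of `g (single j 1)`. For `y : J →₀ Λ` let `En s t y : J →₀ L` be the (s,t) entries.
Then `En s t (bc g y) = bc (comp g t) (En s t y)` (check on `y = single j M`:
`M * diag (r_i • 1)` has (s,t) entry `M s t * (r_t • 1)`). If `bc g y = 0`, `exists_rep` (Flat.lean)
for `comp g t` gives `En s t y = ∑ a, l a • emb (x a)` with `comp g t (x a) = 0`; put
`x' a : J →₀ R` = `x a` in component t, 0 elsewhere; `g (x' a) = 0`,
`y = ∑ s t a, (Matrix.single s t (l a)) • emb (x' a)`. -/
def S_rflat : Prop := ∀ (ι : Type) [Fintype ι] [DecidableEq ι] (A : ι → Type) [∀ i, Ring (A i)]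
  (L : Type) [Ring L] [∀ i, Module (A i) L] [∀ i, IsScalarTower (A i) L L],
  (∀ i, RFlat (A i) L) → RFlat (∀ i, A i) (Matrix ι ι L)

/-- TASK P2 (file ProdProj.lean, theorem proj_prod).
Sections `s i : L →ₗ[A i] (L →₀ A i)` of `Finsupp.linearCombination`; section of
`(Λ →₀ R) → Λ`: `M ↦ ∑ i j, mapDomain (Matrix.single i j) (mapRange (Pi.single i) (s i (M i j)))`. -/
def S_proj : Prop := ∀ (ι : Type) [Fintype ι] [DecidableEq ι] (A : ι → Type) [∀ i, Ring (A i)]
  (L : Type) [Ring L] [∀ i, Module (A i) L] [∀ i, IsScalarTower (A i) L L],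
  (∀ i, Module.Projective (A i) L) → Module.Projective (∀ i, A i) (Matrix ι ι L)

/-- TASK P3 (file ProdC1.lean, theorem c1_prod). For each i apply C1 to the i-components of h, k;
`s'` = total of the `s' i`, `T` = total of the `T i` (index types `Σ i, Fin (s' i)`, transported by
`Fintype.equivFin`), `k' (i, l) = Pi.single i (k'_i l)`, `ρ (i, t) l = Pi.single i (ρ_i t l)`,
`ρ' (i, t) (i', l) = if i = i' then Pi.single i (ρ'_i t l) else 0`, `z (i, t) = Pi.single i (z_i t)`. -/
def S_c1 : Prop := ∀ (ι : Type) [Fintype ι] [DecidableEq ι] (A : ι → Type) [∀ i, Ring (A i)],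
  (∀ i, C1 (A i)) → C1 (∀ i, A i)

/-- TASK P4 (file ProdPd.lean, theorems pdk_mono, pdk_prod). `pdk_mono`: if `ker d` is projective
and `range d' = ker d` then `d'` splits, so `ker d'` is projective; `PdK R k d → PdK R (k+1) d` by
induction on k. `pdk_prod`: components `comp g i` as in P1; `range d = ker e` passes to components
(and only this direction is needed); `ker d` is projective if all `ker (comp d i)` are: section
`x ↦ ∑ i, mapDomain (ins i) (mapRange (Pi.single i) (s i (x_i)))`. -/
def S_pdk : Prop := (∀ (R : Type) [Ring R] (k l : ℕ), k ≤ l → PDk R k → PDk R l) ∧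
  ∀ (ι : Type) [Fintype ι] [DecidableEq ι] (A : ι → Type) [∀ i, Ring (A i)] (k : ℕ),
    (∀ i, PDk (A i) k) → PDk (∀ i, A i) k

end Prod

end Pool.Agent.WaldP
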